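import Pool.Agent.L5helper15.KD.Gen

/-! The closure of the rational points of infinite order, all nonarchimedean places -/

set_option autoImplicit false
set_option linter.unusedVariables false
set_option linter.unusedSectionVars false

open Filter Topology

namespace Pool.Agent.L5helper15.KD

open MvPolynomial Pool.Agent.Y720.MZ Pool.Agent.Results.MP_ed3816_nt.OpenAwayFromTorsion

section abs

variable {m : ℕ} {g : MvPolynomial (Fin m) ℝ} {S : Set ((Fin m → ℝ) × ℝ)}

/-- a closed set of real points which is stable under small moves in the directions of the coordinates -/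
def Stable (g : MvPolynomial (Fin m) ℝ) (S : Set ((Fin m → ℝ) × ℝ)) : Prop :=
  ∀ (z : (Fin m → ℝ) × ℝ) (j : Fin m), (z.2 ≠ 0 ∨ eval z.1 (pderiv j g) ≠ 0) →
    ∃ δ : ℝ, 0 < δ ∧ ∀ z₁ : (Fin m → ℝ) × ℝ, (∀ k, |z₁.1 k - z.1 k| < δ) → |z₁.2 - z.2| < δ →
      z₁ ∈ S → ∀ t Y : ℝ, |t| < δ → |Y - z.2| < δ → Y ≠ 0 →
      onX g (shf z₁.1 j t) Y → (shf z₁.1 j t, Y) ∈ S

theorem abs1 (hon : ∀ z ∈ S, onX g z.1 z.2) (hS : Stable g S) {z : (Fin m → ℝ) × ℝ}
    (hz : z ∈ S) (hw : z.2 ≠ 0) :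
    ∃ ε : ℝ, 0 < ε ∧ ∀ z' : (Fin m → ℝ) × ℝ, (∀ k, |z'.1 k - z.1 k| < ε) → |z'.2 - z.2| < ε →
      onX g z'.1 z'.2 → z' ∈ S := by
  classical
  have hon := hon z hz
  choose δ hδ hmv using fun j => hS z j (Or.inl hw)
  obtain ⟨δ', hδ', hle⟩ := fin_min hδ
  have hw0 : 0 < |z.2| := abs_pos.2 hw
  obtain ⟨ρ, hρ, hsq⟩ := sq_near hon hw (ε := min δ' |z.2|) (lt_min hδ' hw0)
  refine ⟨min ρ (min δ' |z.2|), lt_min hρ (lt_min hδ' hw0), fun z' h1 h2 h3 => ?_⟩
  have key : ∀ s : Finset (Fin m), ∀ Y : ℝ, |Y - z.2| < min δ' |z.2| →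
      onX g (fun k => if k ∈ s then z'.1 k else z.1 k) Y →
      ((fun k => if k ∈ s then z'.1 k else z.1 k), Y) ∈ S := by
    intro s
    induction s using Finset.induction_on with
    | empty =>
      intro Y hY hYon
      simp only [Finset.notMem_empty, if_false] at hYon ⊢
      have e1 : Y ^ 2 = z.2 ^ 2 := by
        rw [show Y ^ 2 = eval z.1 g from hYon]
        exact (show z.2 ^ 2 = eval z.1 g from hon).symm
      rcases sq_eq_sq_iff_eq_or_eq_neg.1 e1 with h | h
      · rw [h]; exact hz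
      · exfalso
        have := hY.trans_le (min_le_right _ _)
        rw [h] at this
        have e2 : -z.2 - z.2 = -(2 * z.2) := by ring
        rw [e2, abs_neg, abs_mul, abs_two] at this
        linarith
    | insert j s hj ih =>
      intro Y hY hYon
      obtain ⟨Y₁, k1, k2⟩ := hsq (fun k => if k ∈ s then z'.1 k else z.1 k) (fun k => by
        by_cases hk : k ∈ s
        · simp only [hk, if_true]
          exact (h1 k).trans_le (min_le_left _ _)
        · simp only [hk, if_false, sub_self, norm_zero]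
          exact hρ)
      rw [Real.norm_eq_abs] at k1
      have k3 := ih Y₁ k1 k2
      have e1 : (fun k => if k ∈ insert j s then z'.1 k else z.1 k) =
          shf (fun k => if k ∈ s then z'.1 k else z.1 k) j (z'.1 j - z.1 j) := by
        funext k
        simp only [shf]
        by_cases hk : k = j
        · subst hk
          simp [hj]
        · rw [Pi.single_eq_of_ne hk]
          simp [hk]
      rw [e1] at hYon ⊢
      refine hmv j (_, Y₁) (fun k => ?_) ((k1.trans_le (min_le_left _ _)).trans_le (hle j)) k3 _ Y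
        (((h1 j).trans_le ((min_le_right _ _).trans (min_le_left _ _))).trans_le (hle j))
        ((hY.trans_le (min_le_left _ _)).trans_le (hle j)) ?_ hYon
      · simp only
        by_cases hk : k ∈ s
        · simp only [hk, if_true]
          exact ((h1 k).trans_le ((min_le_right _ _).trans (min_le_left _ _))).trans_le (hle j)
        · simp only [hk, if_false, sub_self, abs_zero]
          exact hδ j
      · rintro rfl
        have := hY.trans_le (min_le_right _ _)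
        rw [zero_sub, abs_neg] at this
        exact lt_irrefl _ this
  have := key Finset.univ z'.2 (h2.trans_le (min_le_right _ _)) (by
    simp only [Finset.mem_univ, if_true]
    exact h3)
  simpa using this

theorem abs2 (hcl : IsClosed S) (hon : ∀ z ∈ S, onX g z.1 z.2) (hS : Stable g S)
    {z : (Fin m → ℝ) × ℝ} (hz : z ∈ S) (hw : z.2 = 0) {j : Fin m}
    (hj : eval z.1 (pderiv j g) ≠ 0) :
    ∃ ε : ℝ, 0 < ε ∧ ∀ z' : (Fin m → ℝ) × ℝ, (∀ k, |z'.1 k - z.1 k| < ε) → |z'.2 - z.2| < ε →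
      onX g z'.1 z'.2 → z' ∈ S := by
  have honz := hon z hz
  obtain ⟨δ, hδ, hmv⟩ := hS z j (Or.inr hj)
  obtain ⟨t, Y, ht, hY, hY0, hYon⟩ := pos (j := j) (by rw [← hw]; exact honz) hj (half_pos hδ)
  have h1 : (shf z.1 j t, Y) ∈ S :=
    hmv z (fun k => by simpa using hδ) (by simpa using hδ) hz t Y (by linarith)
      (by rw [hw, sub_zero]; linarith) hY0 hYon
  obtain ⟨ε₁, hε₁, hn⟩ := abs1 hon hS h1 hY0
  obtain ⟨ρ₁, hρ₁, hsq⟩ := sq_near hYon hY0 (ε := min ε₁ (δ / 2)) (lt_min hε₁ (half_pos hδ))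
  have hcont : ∀ᶠ x in 𝓝 z.1, eval x (pderiv j g) ≠ 0 :=
    ((MvPolynomial.continuous_eval _).continuousAt).eventually_ne hj
  obtain ⟨ρ₂, hρ₂, hne⟩ := Metric.eventually_nhds_iff_ball.1 hcont
  set ε := min (min ρ₁ ρ₂) (min ε₁ (δ / 2)) with hε
  have hε0 : 0 < ε := lt_min (lt_min hρ₁ hρ₂) (lt_min hε₁ (half_pos hδ))
  have d1 : ε ≤ ρ₁ := (min_le_left _ _).trans (min_le_left _ _)
  have d2 : ε ≤ ρ₂ := (min_le_left _ _).trans (min_le_right _ _)
  have d3 : ε ≤ ε₁ := (min_le_right _ _).trans (min_le_left _ _)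
  have d4 : ε ≤ δ / 2 := (min_le_right _ _).trans (min_le_right _ _)
  have key : ∀ z' : (Fin m → ℝ) × ℝ, (∀ k, |z'.1 k - z.1 k| < ε) → |z'.2 - z.2| < ε →
      z'.2 ≠ 0 → onX g z'.1 z'.2 → z' ∈ S := by
    intro z' k1 k2 k3 k4
    obtain ⟨Y', g1, g2⟩ := hsq (shf z'.1 j t) (fun k => by
      rw [shf_sub]; exact (k1 k).trans_le d1)
    rw [Real.norm_eq_abs] at g1
    have g3 : (shf z'.1 j t, Y') ∈ S := hn (shf z'.1 j t, Y') (fun k => by
      change |shf z'.1 j t k - shf z.1 j t k| < _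
      rw [shf_sub]; exact (k1 k).trans_le d3) (g1.trans_le (min_le_left _ _)) g2
    have g4 := hmv (shf z'.1 j t, Y') (fun k => by
        have e1 := abs_sub_le (shf z'.1 j t k) (z'.1 k) (z.1 k)
        have e2 := shf_le z'.1 j t k
        have e3 := (k1 k).trans_le d4
        change |shf z'.1 j t k - z.1 k| < _
        linarith) (by
        have e1 := abs_sub_le Y' Y z.2
        have e2 := g1.trans_le (min_le_right _ _)
        change |Y' - z.2| < _
        simp only [hw, sub_zero] at e1 ⊢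
        linarith) g3 (-t) z'.2 (by rw [abs_neg]; linarith) (k2.trans_le (d4.trans (by linarith))) k3
    simp only [shf_shf, add_neg_cancel, shf_zero] at g4
    exact g4 k4
  refine ⟨ε, hε0, fun z' k1 k2 k4 => ?_⟩
  by_cases k3 : z'.2 = 0
  · have hj' : eval z'.1 (pderiv j g) ≠ 0 := hne z'.1 (by
      rw [Metric.mem_ball, dist_pi_lt_iff hρ₂]
      intro k
      rw [Real.dist_eq]
      exact (k1 k).trans_le d2)
    obtain ⟨ρ₃, hρ₃, hρ₃le⟩ := fin_min (f := fun k => ε - |z'.1 k - z.1 k|) (fun k => sub_pos.2 (k1 k))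
    rw [← hcl.closure_eq, Metric.mem_closure_iff]
    intro η hη
    obtain ⟨t', Y', g1, g2, g3, g4⟩ := pos (j := j) (by rw [← k3]; exact k4) hj'
      (ε := min (min ρ₃ ε) (η / 2)) (lt_min (lt_min hρ₃ hε0) (half_pos hη))
    have g5 := key (shf z'.1 j t', Y') (fun k => by
      have e1 := abs_sub_le (shf z'.1 j t' k) (z'.1 k) (z.1 k)
      have e2 := shf_le z'.1 j t' k
      have e3 := hρ₃le k
      have e4 := g1.trans_le ((min_le_left _ _).trans (min_le_left _ _))
      change |shf z'.1 j t' k - z.1 k| < _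
      linarith) (by
      change |Y' - z.2| < ε
      rw [hw, sub_zero]
      exact g2.trans_le ((min_le_left _ _).trans (min_le_right _ _))) g3 g4
    refine ⟨_, g5, ?_⟩
    rw [Prod.dist_eq]
    refine max_lt ?_ ?_
    · rw [dist_pi_lt_iff hη]
      intro k
      have e2 := shf_le z'.1 j t' k
      have e4 := g1.trans_le (min_le_right _ _)
      rw [dist_comm, Real.dist_eq]
      change |shf z'.1 j t' k - z'.1 k| < η
      linarith
    · have e4 := g2.trans_le (min_le_right _ _)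
      rw [dist_comm, Real.dist_eq]
      change |Y' - z'.2| < η
      rw [k3, sub_zero]
      linarith
  · exact key z' k1 k2 k3 k4

/-- **A closed set of real points which is stable under small moves is a union of components.** -/
theorem abs3 (hcl : IsClosed S) (hon : ∀ z ∈ S, onX g z.1 z.2) (hS : Stable g S)
    {z : (Fin m → ℝ) × ℝ} (hz : z ∈ S) (hs : z ∈ Smooth g) {z' : (Fin m → ℝ) × ℝ}
    (hz' : z' ∈ connectedComponentIn (Smooth g) z) : z' ∈ S := by
  obtain ⟨A, hA⟩ : ∃ A : Set ((Fin m → ℝ) × ℝ), A = {z' | OnCover g z' → z' ∈ S} := ⟨_, rfl⟩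
  have h1 : ∀ z ∈ Smooth g, z ∈ S → z ∈ interior A := by
    rintro z ⟨-, h2⟩ h3
    have h4 : ∃ ε : ℝ, 0 < ε ∧ ∀ z' : (Fin m → ℝ) × ℝ, (∀ k, |z'.1 k - z.1 k| < ε) →
        |z'.2 - z.2| < ε → onX g z'.1 z'.2 → z' ∈ S := by
      by_cases hw : z.2 = 0
      · obtain ⟨j, hj⟩ := h2.resolve_left (not_not.2 hw)
        exact abs2 hcl hon hS h3 hw hj
      · exact abs1 hon hS h3 hw
    obtain ⟨ε, hε, h5⟩ := h4
    rw [mem_interior_iff_mem_nhds]
    refine Filter.mem_of_superset (Metric.ball_mem_nhds z hε) fun z' hz' => ?_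
    rw [Metric.mem_ball, Prod.dist_eq, max_lt_iff, dist_pi_lt_iff hε] at hz'
    rw [hA]
    exact fun h6 => h5 z' (fun k => hz'.1 k) hz'.2 h6
  have hC : connectedComponentIn (Smooth g) z ⊆ Smooth g := connectedComponentIn_subset _ _
  have h2 := isPreconnected_iff_subset_of_disjoint.1
    (isPreconnected_connectedComponentIn (F := Smooth g) (x := z)) (interior A) Sᶜ
    isOpen_interior hcl.isOpen_compl
    (fun w hw => by
      by_cases h : w ∈ S
      · exact Or.inl (h1 w (hC hw) h)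
      · exact Or.inr h)
    (by
      rw [Set.eq_empty_iff_forall_notMem]
      rintro w ⟨hw, hw1, hw2⟩
      have := interior_subset hw1
      rw [hA] at this
      exact hw2 (this (hC hw).1))
  rcases h2 with h2 | h2
  · have := interior_subset (h2 hz')
    rw [hA] at this
    exact this (hC hz').1
  · exact absurd hz (h2 (mem_connectedComponentIn hs))

end abs

section pers

variable {K : Type} [Field K] [CharZero K] {m : ℕ} {f : MvPolynomial (Fin m) K}

/-- the rational points outside the branch locus such that all the curves through the point in the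
directions of the coordinates are smooth of genus one and the difference has infinite order -/
def Free (f : MvPolynomial (Fin m) K) (P : (Fin m → K) × K) : Prop :=
  OnCover f P ∧ P.2 ≠ 0 ∧ ∀ j, Moves f P j

lemma moves_iff {P : (Fin m → K) × K} {j : Fin m} (hP : OnCover f P) :
    Moves f P j ↔ IOt (th f (Pi.single j 1) P.1 P.2) := by
  let : DecidableEq K := Classical.decEq K
  constructor
  · exact fun h => io_of hP h
  · intro h
    refine ⟨?_, h.2⟩
    have h1 := h.1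
    rw [Tq_eq (show onX f P.1 P.2 from hP)] at h1
    exact genusOne_iff.2 h1

/-- the condition is stable under small changes, at any `q`-adic place -/
theorem pers {q : ℕ} [Fact q.Prime] (σ : K →+* ℚ_[q]) {P : (Fin m → K) × K} (hP : Free f P) :
    ∃ ρ : ℝ, 0 < ρ ∧ ∀ (a : Fin m → K) (b : K), onX f a b → (∀ k, ‖σ (a k) - σ (P.1 k)‖ < ρ) →
      ‖σ b - σ P.2‖ < ρ → Free f (a, b) := by
  let : DecidableEq K := Classical.decEq K
  obtain ⟨h1, h2, h3⟩ := hP
  have key : ∀ j : Fin m, ∃ ρ : ℝ, 0 < ρ ∧ ∀ (a : Fin m → K) (b : K), onX f a b →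
      (∀ k, ‖σ (a k) - σ (P.1 k)‖ < ρ) → ‖σ b - σ P.2‖ < ρ → b ≠ 0 ∧ Moves f (a, b) j := by
    intro j
    obtain ⟨hD, hS⟩ := (moves_iff h1).1 (h3 j)
    obtain ⟨θ₀, hθ₀⟩ : ∃ θ₀, θ₀ = th f (Pi.single j 1) P.1 P.2 := ⟨_, rfl⟩
    rw [← hθ₀] at hD hS
    have hw' : θ₀.1 ≠ 0 := by rw [hθ₀]; exact h2
    have hns := tns hw' hD
    have hinf := hS hns
    have hBb := Bd_base σ θ₀
    obtain ⟨N, hN, hNp⟩ := accum_near σ hD hBb hinf
      (r := min (1 / (100 * CC σ θ₀)) ‖(q : ℚ_[q])‖) (lt_min hBb.hρ norm_p_pos)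
    let L : Unit → Type := fun _ => ℚ_[q]
    let σ' : Unit → K →+* ℚ_[q] := fun _ => σ
    let : ∀ i : Unit, Fact ((fun _ : Unit => q) i).Prime := fun _ => inferInstance
    set l := lLp (p := fun _ : Unit => q) σ' (fun _ => (σ θ₀.1, fun j => σ (θ₀.2 j))) with hl
    have hT : Tn σ l θ₀ := TnLp_p (σ := σ') ()
    have ev1 : ∀ᶠ θ in l, θ.1 ≠ 0 := hT.ne hw'
    have ev2 : ∀ᶠ θ in l, dsc (tA θ) (tB θ) (tC θ) ≠ 0 := hT.dsc_ne hD
    have ev3 := hT.Bd
    have ev4 := ev_p hT hw' hns hinf hN (min_le_left _ _) hNp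
    obtain ⟨δ, hδ, hb⟩ := lLp_ev (ev1.and (ev2.and (ev3.and ev4)))
    obtain ⟨δ', hδ', hc⟩ := cq_nearL (V := Unit) (L := fun _ => ℚ_[q]) (s := σ') f
      (Pi.single j 1) (fun _ k => σ (P.1 k)) hδ
    refine ⟨min δ δ', lt_min hδ hδ', fun a b hab k1 k2 => ?_⟩
    have hcq0 : ∀ i, σ (θ₀.2 i) = cq (MvPolynomial.map σ f) (fun k => σ (P.1 k))
        (fun a => σ ((Pi.single j 1 : Fin m → K) a)) i := by
      intro i
      rw [hθ₀]
      simp only [th, cq]
      rw [← Polynomial.coeff_map, rst_map]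
    obtain ⟨g1, g2, g3, g4⟩ := hb (th f (Pi.single j 1) a b)
      (fun _ => by
        change ‖σ b - σ θ₀.1‖ < δ
        rw [hθ₀]; exact k2.trans_le (min_le_left _ _))
      (fun _ i => by
        have := hc a (fun _ k => (k1 k).trans_le (min_le_right _ _)) () i
        change ‖σ (cq f a (Pi.single j 1) i) - σ (θ₀.2 i)‖ < δ
        rw [hcq0]
        exact this)
    refine ⟨g1, (moves_iff (P := (a, b)) hab).2 ⟨g2, fun h n hn h0 => ?_⟩⟩
    obtain ⟨g5, g6⟩ := g4 h
    have hr0 : 0 < av σ (TT (N • (.some _ _ hns : Pt (tA θ₀) (tB θ₀) (tC θ₀)))) :=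
      (av σ).pos (TT_ne hBb (min_le_left _ _) hNp (hinf N hN))
    refine U7 g3 (hNp.le.trans (min_le_left _ _)) hr0 (hNp.le.trans (min_le_right _ _)) g5 g6 n hn ?_
    rw [smul_comm, h0, smul_zero]
  choose ρ hρ hρb using key
  obtain ⟨ρ', hρ', hle⟩ := fin_min (f := fun o : Option (Fin m) => o.elim ‖σ P.2‖ ρ) (by
    rintro (_ | j)
    · exact norm_pos_iff.2 ((map_ne_zero σ).2 h2)
    · exact hρ j)
  refine ⟨ρ', hρ', fun a b hab k1 k2 => ⟨hab, ?_, fun j =>
    (hρb j a b hab (fun k => (k1 k).trans_le (hle (some j))) (k2.trans_le (hle (some j)))).2⟩⟩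
  rintro rfl
  have : ρ' ≤ ‖σ P.2‖ := hle none
  rw [map_zero, zero_sub, norm_neg] at k2
  linarith

end pers

section adelic

variable {K : Type} [Field K] [CharZero K] {m : ℕ} {f : MvPolynomial (Fin m) K} {ι : Type}
  {L : ι → Type} [∀ i, NontriviallyNormedField (L i)] [∀ i, IsUltrametricDist (L i)]
  [∀ i, ProperSpace (L i)] {σ : ∀ i, K →+* L i} {τ : K →+* ℝ}

/-- the closure of the set of the rational points as above -/
def FreeCl (f : MvPolynomial (Fin m) K) (σ : ∀ i, K →+* L i) (τ : K →+* ℝ) :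
    Set (((Fin m → ℝ) × ℝ) × ∀ i, (Fin m → L i) × L i) :=
  closure {S | ∃ P, Free f P ∧ S = (image τ P, fun i => image (σ i) P)}

omit [CharZero K] [∀ i, IsUltrametricDist (L i)] [∀ i, ProperSpace (L i)] in
lemma mem_pi_cl {A : Set ((Fin m → K) × K)}
    {T : ((Fin m → ℝ) × ℝ) × ∀ i, (Fin m → L i) × L i} :
    T ∈ closure {S : ((Fin m → ℝ) × ℝ) × ∀ i, (Fin m → L i) × L i |
      ∃ P, P ∈ A ∧ S = (image τ P, fun i => image (σ i) P)} ↔
    ∀ (F : Finset ι) (η : ℝ), 0 < η → ∃ P ∈ A,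
      ((∀ k, |τ (P.1 k) - T.1.1 k| < η) ∧ |τ P.2 - T.1.2| < η) ∧
      ∀ i ∈ F, (∀ k, ‖σ i (P.1 k) - (T.2 i).1 k‖ < η) ∧ ‖σ i P.2 - (T.2 i).2‖ < η := by
  rw [mem_closure_iff_nhds]
  constructor
  · intro h F η hη
    have h1 : Metric.ball T.1 η ×ˢ (F : Set ι).pi (fun i => Metric.ball (T.2 i) η) ∈ 𝓝 T := by
      rw [← Prod.mk.eta (p := T), nhds_prod_eq]
      exact Filter.prod_mem_prod (Metric.ball_mem_nhds _ hη)
        (set_pi_mem_nhds F.finite_toSet fun i _ => Metric.ball_mem_nhds _ hη)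
    obtain ⟨_, ⟨h2, h3⟩, P, hP, rfl⟩ := h _ h1
    refine ⟨P, hP, ?_, fun i hi => ?_⟩
    · rw [Metric.mem_ball, dist_comm] at h2
      exact (dist_image τ P T.1 hη).1 h2
    · have h4 := h3 i hi
      rw [Metric.mem_ball, dist_comm] at h4
      exact (dist_image (σ i) P (T.2 i) hη).1 h4
  · intro h U hU
    rw [← Prod.mk.eta (p := T), nhds_prod_eq, Filter.mem_prod_iff] at hU
    obtain ⟨U₁, hU₁, U₂, hU₂, hU⟩ := hU
    obtain ⟨ε₁, hε₁, hb₁⟩ := Metric.mem_nhds_iff.1 hU₁
    rw [nhds_pi, Filter.mem_pi'] at hU₂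
    obtain ⟨F, V, hV, hVU⟩ := hU₂
    choose ε hε hb using fun i => Metric.mem_nhds_iff.1 (hV i)
    obtain ⟨ε₂, hε₂, hle⟩ := fin_min (ι := {i // i ∈ F}) (f := fun i => ε i.1) fun i => hε i.1
    obtain ⟨P, hP, k1, k2⟩ := h F (min ε₁ ε₂) (lt_min hε₁ hε₂)
    refine ⟨(image τ P, fun i => image (σ i) P), hU ⟨hb₁ ?_, hVU fun i hi => hb i ?_⟩, P, hP, rfl⟩
    · rw [Metric.mem_ball, dist_comm]
      exact (dist_image τ P T.1 hε₁).2 ⟨fun k => (k1.1 k).trans_le (min_le_left _ _),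
        k1.2.trans_le (min_le_left _ _)⟩
    · have h4 : min ε₁ ε₂ ≤ ε i := (min_le_right _ _).trans (hle ⟨i, hi⟩)
      rw [Metric.mem_ball, dist_comm]
      exact (dist_image (σ i) P (T.2 i) (hε i)).2
        ⟨fun k => ((k2 i hi).1 k).trans_le h4, (k2 i hi).2.trans_le h4⟩

/-- **Moves at the real place of the rational points of infinite order.** -/
theorem lm_ad (hd : ∀ j, f.degreeOf j ≤ 4) {q : ℕ} [Fact q.Prime] (σ₀ : K →+* ℚ_[q])
    (y : ∀ i, (Fin m → L i) × L i) :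
    Stable (map τ f) {z | (z, y) ∈ FreeCl f σ τ} := by
  intro z j hz
  let : DecidableEq K := Classical.decEq K
  have hsi : (fun k => τ ((Pi.single j 1 : Fin m → K) k)) = Pi.single j 1 := by
    funext k
    by_cases h : k = j
    · subst h; simp
    · rw [Pi.single_eq_of_ne h, Pi.single_eq_of_ne h, map_zero]
  obtain ⟨C', ρ', δ₀, hδ₀, hmv⟩ := near3 τ (θ' := (z.2, cq (map τ f) z.1 (Pi.single j 1)))
    (by
      change z.2 ≠ 0 ∨ cq (map τ f) z.1 (Pi.single j 1) 0 ≠ 0
      rw [cq_zero]; exact hz)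
  obtain ⟨δ₁, hδ₁, hc⟩ := cq_nearL (V := Unit) (L := fun _ => ℝ) (s := fun _ => τ) f
    (Pi.single j 1) (fun _ => z.1) hδ₀
  rw [hsi] at hc
  set δ := min δ₀ δ₁ / 2 with hδ
  have hδ0 : 0 < δ := half_pos (lt_min hδ₀ hδ₁)
  have d0 : 2 * δ ≤ δ₀ := by
    have := min_le_left δ₀ δ₁
    rw [hδ]; linarith
  have d1 : 2 * δ ≤ δ₁ := by
    have := min_le_right δ₀ δ₁
    rw [hδ]; linarith
  refine ⟨δ, hδ0, fun z₁ h1 h2 hcl t Y ht hY hY0 hon => ?_⟩
  rw [Set.mem_setOf_eq, FreeCl] at hcl ⊢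
  have hcl' := (mem_pi_cl (A := {P | Free f P})).1 hcl
  refine (mem_pi_cl (A := {P | Free f P})).2 fun F η hη => ?_
  obtain ⟨ρ₁, hρ₁, hsq⟩ := sq_near hon hY0 (ε := min (η / 2) δ) (lt_min (half_pos hη) hδ0)
  obtain ⟨P, hP, ⟨k1, k2⟩, k3⟩ := hcl' F (min (min ρ₁ (η / 2)) δ)
    (lt_min (lt_min hρ₁ (half_pos hη)) hδ0)
  have m1 : min (min ρ₁ (η / 2)) δ ≤ ρ₁ := (min_le_left _ _).trans (min_le_left _ _)
  have m2 : min (min ρ₁ (η / 2)) δ ≤ η / 2 := (min_le_left _ _).trans (min_le_right _ _)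
  have m3 : min (min ρ₁ (η / 2)) δ ≤ δ := min_le_right _ _
  obtain ⟨a, b⟩ := P
  have hab : onX f a b := hP.1
  obtain ⟨Y', hY', hon'⟩ := hsq (shf (fun k => τ (a k)) j t) (fun k => by
    have : shf (fun k => τ (a k)) j t k - shf z₁.1 j t k = τ (a k) - z₁.1 k := by
      simp only [shf]; ring
    rw [this]
    exact (k1 k).trans_le m1)
  rw [Real.norm_eq_abs] at hY'
  obtain ⟨g1, g2⟩ := (moves_iff hP.1).1 (hP.2.2 j)
  have hw1 : (th f (Pi.single j 1) a b).1 ≠ 0 := hP.2.1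
  have hns := tns hw1 g1
  have habτ : onX (map τ f) (fun k => τ (a k)) (τ b) := onX_map (s := fun _ : Unit => τ) hab ()
  have hcqτ : (fun i => τ (cq f a (Pi.single j 1) i)) = cq (map τ f) (fun k => τ (a k)) (Pi.single j 1) := by
    funext i
    simp only [cq]
    rw [← Polynomial.coeff_map, rst_map, hsi]
  have hqv : Y' ^ 2 = qv (τ b) (fun i => τ (cq f a (Pi.single j 1) i)) t := by
    rw [hcqτ, cq_eval (deg_rst (degreeOf_map_le τ (hd j)) _) habτ t]
    exact hon'
  obtain ⟨hBd, hmv⟩ := hmv (th f (Pi.single j 1) a b)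
    (by
      have := abs_sub_le (τ b) z₁.2 z.2
      have := k2.trans_le m3
      change |τ b - z.2| < δ₀
      simp only at this
      linarith)
    (fun i => by
      refine hc a (fun _ k => ?_) () i
      have := abs_sub_le (τ (a k)) (z₁.1 k) (z.1 k)
      have := (k1 k).trans_le m3
      have := h1 k
      change |τ (a k) - z.1 k| < δ₁
      simp only at *
      linarith)
  obtain ⟨ρq, hρq, hpers⟩ := pers σ₀ hP
  have hbd : ∀ (k : Fin m) {x : ℝ}, 0 ≤ x → x < η / 2 → x * |(Pi.single j 1 : Fin m → ℝ) k| < η / 2 := by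
    intro k x hx0 hx
    by_cases h : k = j
    · subst h; simpa using hx
    · rw [Pi.single_eq_of_ne h]; simpa using hη
  obtain ⟨s, Z, n1, n2, n0, n3, n4⟩ : ∃ s Z : K, Z ^ 2 = qv b (cq f a (Pi.single j 1)) s ∧
      (∀ i : {i // i ∈ F}, ‖σ i.1 s‖ < min (η / 2) ρq ∧ ‖σ i.1 Z - σ i.1 b‖ < min (η / 2) ρq) ∧
      (‖σ₀ s‖ < min (η / 2) ρq ∧ ‖σ₀ Z - σ₀ b‖ < min (η / 2) ρq) ∧
      |τ s - t| < min (η / 2) ρq ∧ |τ Z - Y'| < min (η / 2) ρq := by
    have hmin : 0 < min (η / 2) ρq := lt_min (half_pos hη) hρq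
    rcases hmv t Y' (by linarith) (by
        have := abs_sub_le Y' Y z.2
        have := hY'.trans_le (min_le_right _ _)
        change |Y' - z.2| < δ₀
        linarith) hqv with ⟨e1, e2⟩ | ⟨u, r1, r2, r3, r4, r5, r6, r7⟩
    · refine ⟨0, b, by simp [qv], fun i => ⟨by simpa using hmin, by simpa using hmin⟩,
        ⟨by simpa using hmin, by simpa using hmin⟩, ?_, ?_⟩
      · rw [e1, map_zero, sub_zero, abs_zero]; exact hmin
      · rw [e2]
        change |τ b - τ b| < _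
        rw [sub_self, abs_zero]; exact hmin
    · obtain ⟨s, Z, w1, w2, w3, w4, w5⟩ := move1g (fun i : {i // i ∈ F} => σ i.1) σ₀ g1
        (S := .some _ _ hns) (g2 hns) hBd r1 r2 r3 r4 r5 r6 hmin
      exact ⟨s, Z, w1, w2, w3, w4, by rw [← r7]; exact w5⟩
  have q1 : min (η / 2) ρq ≤ η / 2 := min_le_left _ _
  have q2 : min (η / 2) ρq ≤ ρq := min_le_right _ _
  have hnew : onX f (fun k => a k + s * (Pi.single j 1 : Fin m → K) k) Z := by
    unfold onX
    rw [n1]
    exact cq_eval (deg_rst (hd j) a) hab s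
  refine ⟨(fun k => a k + s * (Pi.single j 1 : Fin m → K) k, Z), ?_, ⟨fun k => ?_, ?_⟩,
    fun i hi => ⟨fun k => ?_, ?_⟩⟩
  · refine hpers _ Z hnew (fun k => ?_) (n0.2.trans_le q2)
    have e1 : σ₀ (a k + s * (Pi.single j 1 : Fin m → K) k) - σ₀ (a k) =
        σ₀ s * σ₀ ((Pi.single j 1 : Fin m → K) k) := by
      rw [map_add, map_mul]; ring
    change ‖σ₀ (a k + s * (Pi.single j 1 : Fin m → K) k) - σ₀ (a k)‖ < ρq
    rw [e1, norm_mul]
    by_cases h : k = j
    · subst h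
      rw [Pi.single_eq_same, map_one, norm_one, mul_one]
      exact n0.1.trans_le q2
    · rw [Pi.single_eq_of_ne h, map_zero, norm_zero, mul_zero]
      exact hρq
  · have e1 : τ (a k + s * (Pi.single j 1 : Fin m → K) k) - shf z₁.1 j t k =
        (τ (a k) - z₁.1 k) + (τ s - t) * (Pi.single j 1 : Fin m → ℝ) k := by
      have := congrFun hsi k
      rw [map_add, map_mul, this, shf]; ring
    change |τ (a k + s * (Pi.single j 1 : Fin m → K) k) - shf z₁.1 j t k| < η
    rw [e1]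
    refine (abs_add_le _ _).trans_lt ?_
    rw [abs_mul]
    have h5 := (k1 k).trans_le m2
    have h6 := hbd k (abs_nonneg _) (n3.trans_le q1)
    change |τ (a k) - z₁.1 k| < η / 2 at h5
    linarith
  · have h5 := abs_sub_le (τ Z) Y' Y
    have h6 := hY'.trans_le (min_le_left _ _)
    have h7 := n4.trans_le q1
    change |τ Z - Y| < η
    linarith
  · have e1 : σ i (a k + s * (Pi.single j 1 : Fin m → K) k) - (y i).1 k =
        (σ i (a k) - (y i).1 k) + σ i s * σ i ((Pi.single j 1 : Fin m → K) k) := by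
      rw [map_add, map_mul]; ring
    change ‖σ i (a k + s * (Pi.single j 1 : Fin m → K) k) - (y i).1 k‖ < η
    rw [e1]
    refine (norm_add_le _ _).trans_lt ?_
    rw [norm_mul]
    have h3 := ((k3 i hi).1 k).trans_le m2
    change ‖σ i (a k) - (y i).1 k‖ < η / 2 at h3
    have h4 : ‖σ i s‖ * ‖σ i ((Pi.single j 1 : Fin m → K) k)‖ < η / 2 := by
      by_cases h : k = j
      · subst h
        rw [Pi.single_eq_same, map_one, norm_one, mul_one]
        exact (n2 ⟨i, hi⟩).1.trans_le q1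
      · rw [Pi.single_eq_of_ne h, map_zero, norm_zero, mul_zero]
        exact half_pos hη
    linarith
  · have e1 := norm_sub_le_norm_sub_add_norm_sub (σ i Z) (σ i b) (y i).2
    have h3 := (k3 i hi).2.trans_le m2
    have e2 := (n2 ⟨i, hi⟩).2.trans_le q1
    change ‖σ i b - (y i).2‖ < η / 2 at h3
    change ‖σ i Z - (y i).2‖ < η
    linarith

/-- **The closure of the rational points of infinite order contains whole real components.** -/
theorem comp_ad (hd : ∀ j, f.degreeOf j ≤ 4) {q : ℕ} [Fact q.Prime] (σ₀ : K →+* ℚ_[q])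
    {y : ∀ i, (Fin m → L i) × L i} {z : (Fin m → ℝ) × ℝ} (hz : (z, y) ∈ FreeCl f σ τ)
    (hs : z ∈ Smooth (map τ f)) {z' : (Fin m → ℝ) × ℝ}
    (hz' : z' ∈ connectedComponentIn (Smooth (map τ f)) z) : (z', y) ∈ FreeCl f σ τ := by
  refine abs3 (S := {z | (z, y) ∈ FreeCl f σ τ}) ?_ (fun z hz => ?_) (lm_ad hd σ₀ y) hz hs hz'
  · exact isClosed_closure.preimage (by fun_prop)
  · have h1 : IsClosed {T : ((Fin m → ℝ) × ℝ) × ∀ i, (Fin m → L i) × L i |
        OnCover (map τ f) T.1} := (isClosed_onCover (map τ f)).preimage continuous_fst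
    exact closure_minimal (by
      rintro _ ⟨P, hP, rfl⟩
      exact onCover_image τ hP.1) h1 hz

end adelic

end Pool.Agent.L5helper15.KD
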