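import Pool.Agent.Y720.WL.LemR

/-! The quartic and its resolvent, regular formulas far from the origin of the parameter -/

set_option autoImplicit false
set_option linter.unusedVariables false

open Filter Topology

namespace Pool.Agent.L5helper15.KD

open Pool.Agent.Y720.MZ

section alg

variable {F : Type*} [Field F]

/-- the abscissa -/
def xu (q₂ q₃ q₄ u t : F) : F := u ^ 2 - (q₂ + q₃ * t + q₄ * t ^ 2)

/-- the ordinate -/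
def yu (w q₂ q₃ q₄ u t : F) : F := u * xu q₂ q₃ q₄ u t - w * (q₃ + 2 * q₄ * t)

/-- the relation between `u` and `t` -/
def Rel (w q₁ q₂ q₃ q₄ u t : F) : Prop :=
  u * (u * t - 2 * w) = q₁ + q₂ * t + q₃ * t ^ 2 + q₄ * t ^ 3

lemma Rel.xt {w q₁ q₂ q₃ q₄ u t : F} (h : Rel w q₁ q₂ q₃ q₄ u t) :
    xu q₂ q₃ q₄ u t * t = q₁ + 2 * w * u := by
  unfold Rel at h
  unfold xu
  linear_combination h

lemma Rel.eqn {w q₁ q₂ q₃ q₄ u t : F} (h : Rel w q₁ q₂ q₃ q₄ u t) :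
    yu w q₂ q₃ q₄ u t ^ 2 = xu q₂ q₃ q₄ u t ^ 3 + q₂ * xu q₂ q₃ q₄ u t ^ 2 +
      rb w q₁ q₃ q₄ * xu q₂ q₃ q₄ u t + rc w q₁ q₂ q₃ q₄ := by
  have e2 := h.xt
  have e1 : u ^ 2 = xu q₂ q₃ q₄ u t + q₂ + q₃ * t + q₄ * t ^ 2 := by unfold xu; ring
  unfold yu rb rc
  set x := xu q₂ q₃ q₄ u t with hx
  linear_combination (x ^ 2 - 4 * w ^ 2 * q₄) * e1 +
    (q₃ * x + q₄ * (x * t + q₁ + 2 * w * u) - 4 * w * u * q₄) * e2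

lemma Rel.t_eq {w q₁ q₂ q₃ q₄ u t : F} (h : Rel w q₁ q₂ q₃ q₄ u t)
    (hd : xu q₂ q₃ q₄ u t ^ 2 - 4 * w ^ 2 * q₄ ≠ 0) :
    t = (q₁ * xu q₂ q₃ q₄ u t + 2 * w ^ 2 * q₃ + 2 * w * yu w q₂ q₃ q₄ u t) /
      (xu q₂ q₃ q₄ u t ^ 2 - 4 * w ^ 2 * q₄) := by
  have e2 := h.xt
  rw [eq_div_iff hd]
  unfold yu
  set x := xu q₂ q₃ q₄ u t with hx
  linear_combination x * e2

lemma Rel.quartic {w q₁ q₂ q₃ q₄ u t : F} (h : Rel w q₁ q₂ q₃ q₄ u t) :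
    (u * t - w) ^ 2 = w ^ 2 + q₁ * t + q₂ * t ^ 2 + q₃ * t ^ 3 + q₄ * t ^ 4 := by
  unfold Rel at h
  linear_combination t * h

/-- the parameter -/
def tg (w q₁ q₃ q₄ x y : F) : F := (q₁ * x + 2 * w ^ 2 * q₃ + 2 * w * y) / (x ^ 2 - 4 * w ^ 2 * q₄)

/-- the slope -/
def ug (w q₁ q₃ q₄ x y : F) : F := (y + w * (q₃ + 2 * q₄ * tg w q₁ q₃ q₄ x y)) / x

/-- from the resolvent to the quartic -/
lemma rel_of {w q₁ q₂ q₃ q₄ x y : F} (hx : x ≠ 0) (hd : x ^ 2 - 4 * w ^ 2 * q₄ ≠ 0)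
    (h : y ^ 2 = x ^ 3 + q₂ * x ^ 2 + rb w q₁ q₃ q₄ * x + rc w q₁ q₂ q₃ q₄) :
    Rel w q₁ q₂ q₃ q₄ (ug w q₁ q₃ q₄ x y) (tg w q₁ q₃ q₄ x y) := by
  obtain ⟨t, ht⟩ : ∃ t, t = tg w q₁ q₃ q₄ x y := ⟨_, rfl⟩
  obtain ⟨u, hu⟩ : ∃ u, u = ug w q₁ q₃ q₄ x y := ⟨_, rfl⟩
  have h1 : t * (x ^ 2 - 4 * w ^ 2 * q₄) = q₁ * x + 2 * w ^ 2 * q₃ + 2 * w * y := by
    rw [ht, tg, div_mul_cancel₀ _ hd]
  have h2 : u * x = y + w * (q₃ + 2 * q₄ * t) := by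
    rw [hu, ug, div_mul_cancel₀ _ hx, ← ht]
  rw [← ht, ← hu]
  have e2 : x * t = q₁ + 2 * w * u := by
    apply mul_left_cancel₀ hx
    linear_combination h1 - 2 * w * h2
  have e1 : u ^ 2 - (x + q₂ + q₃ * t + q₄ * t ^ 2) = 0 := by
    apply (mul_eq_zero.1 (?_ : (x ^ 2 - 4 * w ^ 2 * q₄) * _ = 0)).resolve_left hd
    have hy : y = u * x - w * (q₃ + 2 * q₄ * t) := by linear_combination -h2
    rw [hy] at h
    unfold rb rc at h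
    linear_combination h - (q₃ * x + q₄ * (x * t + q₁ + 2 * w * u) - 4 * w * u * q₄) * e2
  unfold Rel
  linear_combination t * e1 + e2

end alg

end Pool.Agent.L5helper15.KD
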