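import Pool.Agent.L5helper15.KD.Surf

/-! The closure contains whole components of the real points -/

set_option autoImplicit false
set_option linter.unusedVariables false
set_option linter.unusedSectionVars false

open Filter Topology

namespace Pool.Agent.L5helper15.KD

open MvPolynomial Pool.Agent.Y720.MZ Pool.Agent.Results.MP_ed3816_nt.OpenAwayFromTorsion

section pos

variable {m : ℕ} {g : MvPolynomial (Fin m) ℝ}

lemma shf_sub (x x' : Fin m → ℝ) (j : Fin m) (t : ℝ) (k : Fin m) :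
    shf x' j t k - shf x j t k = x' k - x k := by
  simp only [shf]; ring

lemma shf_shf (x : Fin m → ℝ) (j : Fin m) (t s : ℝ) : shf (shf x j t) j s = shf x j (t + s) := by
  funext k
  simp only [shf]; ring

lemma shf_zero (x : Fin m → ℝ) (j : Fin m) : shf x j 0 = x := by
  funext k
  simp only [shf]; ring

lemma shf_le (x : Fin m → ℝ) (j : Fin m) (t : ℝ) (k : Fin m) : |shf x j t k - x k| ≤ |t| := by
  have e1 : shf x j t k - x k = t * (Pi.single j 1 : Fin m → ℝ) k := by
    simp only [shf]; ring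
  rw [e1, abs_mul]
  by_cases h : k = j
  · subst h; simp
  · rw [Pi.single_eq_of_ne h]; simp

lemma shf_eval (x : Fin m → ℝ) (j : Fin m) (t : ℝ) :
    eval (shf x j t) g = (rst g x (Pi.single j 1)).eval t := by
  rw [rst_eval]
  congr 1

/-- close to a smooth branch point there are points outside the branch locus -/
lemma pos {x : Fin m → ℝ} {j : Fin m} (h0 : onX g x 0) (hj : eval x (pderiv j g) ≠ 0) {ε : ℝ}
    (hε : 0 < ε) : ∃ t Y : ℝ, |t| < ε ∧ |Y| < ε ∧ Y ≠ 0 ∧ onX g (shf x j t) Y := by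
  obtain ⟨Q, hQ⟩ : ∃ Q, Q = rst g x (Pi.single j 1) := ⟨_, rfl⟩
  have hQ0 : Q.coeff 0 = 0 := by
    have := shf_eval (g := g) x j 0
    rw [shf_zero] at this
    rw [Polynomial.coeff_zero_eq_eval_zero, hQ, ← this, ← h0]
    simp
  have hQ1 : Q.coeff 1 ≠ 0 := by
    rw [hQ]
    have := cq_zero (g := g) (z := x) (j := j)
    unfold cq at this
    simp only [Fin.val_zero, zero_add] at this
    rw [this]
    exact hj
  obtain ⟨R, hR⟩ : ∃ R, R = Q.divX := ⟨_, rfl⟩
  have hQR : ∀ t, Q.eval t = R.eval t * t := by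
    intro t
    have := Polynomial.divX_mul_X_add Q
    rw [hQ0, map_zero, add_zero, ← hR] at this
    rw [← this, Polynomial.eval_mul, Polynomial.eval_X]
  obtain ⟨r, hr⟩ : ∃ r, r = R.eval 0 := ⟨_, rfl⟩
  have hr0 : r ≠ 0 := by
    rw [hr, ← Polynomial.coeff_zero_eq_eval_zero, hR, Polynomial.coeff_divX]
    exact hQ1
  have c1 : Continuous fun s : ℝ => r * R.eval (r * s) :=
    continuous_const.mul (R.continuous.comp (continuous_const.mul continuous_id))
  have e1 : ∀ᶠ s in 𝓝[>] (0 : ℝ), 0 < r * R.eval (r * s) := by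
    refine Filter.Eventually.filter_mono nhdsWithin_le_nhds ?_
    refine c1.continuousAt.eventually (lt_mem_nhds ?_)
    change 0 < r * R.eval (r * 0)
    rw [mul_zero, ← hr]
    exact mul_self_pos.2 hr0
  have c2 : Continuous fun s : ℝ => |r * s| := (continuous_const.mul continuous_id).abs
  have e2 : ∀ᶠ s in 𝓝[>] (0 : ℝ), |r * s| < ε := by
    refine Filter.Eventually.filter_mono nhdsWithin_le_nhds ?_
    refine c2.continuousAt.eventually (gt_mem_nhds ?_)
    simpa using hε
  have c3 : Continuous fun s : ℝ => √(Q.eval (r * s)) :=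
    (Q.continuous.comp (continuous_const.mul continuous_id)).sqrt
  have e3 : ∀ᶠ s in 𝓝[>] (0 : ℝ), √(Q.eval (r * s)) < ε := by
    refine Filter.Eventually.filter_mono nhdsWithin_le_nhds ?_
    refine c3.continuousAt.eventually (gt_mem_nhds ?_)
    change √(Q.eval (r * 0)) < ε
    rw [mul_zero, hQR, mul_zero, Real.sqrt_zero]
    exact hε
  obtain ⟨s, h1, h2, h3, h4⟩ := (e1.and (e2.and (e3.and self_mem_nhdsWithin))).exists
  have hs : 0 < s := h4
  have hp : 0 < Q.eval (r * s) := by
    rw [hQR]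
    nlinarith [mul_pos h1 hs]
  refine ⟨r * s, √(Q.eval (r * s)), h2, ?_, (Real.sqrt_pos.2 hp).ne', ?_⟩
  · rwa [abs_of_nonneg (Real.sqrt_nonneg _)]
  · unfold onX
    rw [Real.sq_sqrt hp.le, shf_eval, hQ]

end pos

section nhd

variable {K : Type} [Field K] [CharZero K] {m : ℕ} {f : MvPolynomial (Fin m) K} {ι : Type}
  [Finite ι] {p : ι → ℕ} [hp : ∀ i, Fact (p i).Prime] {σ : ∀ i, K →+* ℚ_[p i]} {τ : K →+* ℝ}
  {y : ∀ i, (Fin m → ℚ_[p i]) × ℚ_[p i]}

/-- the closure is open along the real points, outside the branch locus -/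
theorem nhd1 (hd : ∀ j, f.degreeOf j ≤ 4) (hI : ∀ j, Inf f σ y j) {z : (Fin m → ℝ) × ℝ}
    (hz : (z, y) ∈ ClosureReal f σ τ) (hw : z.2 ≠ 0) :
    ∃ ε : ℝ, 0 < ε ∧ ∀ z' : (Fin m → ℝ) × ℝ, (∀ k, |z'.1 k - z.1 k| < ε) → |z'.2 - z.2| < ε →
      onX (map τ f) z'.1 z'.2 → (z', y) ∈ ClosureReal f σ τ := by
  classical
  have hon : onX (map τ f) z.1 z.2 := (on_of_closureR hz).1
  choose δ hδ hmv using fun j => lm (τ := τ) hd (hI j) (z := z) (Or.inl hw)
  obtain ⟨δ', hδ', hle⟩ := fin_min hδ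
  have hw0 : 0 < |z.2| := abs_pos.2 hw
  obtain ⟨ρ, hρ, hsq⟩ := sq_near hon hw (ε := min δ' |z.2|) (lt_min hδ' hw0)
  refine ⟨min ρ (min δ' |z.2|), lt_min hρ (lt_min hδ' hw0), fun z' h1 h2 h3 => ?_⟩
  have key : ∀ s : Finset (Fin m), ∀ Y : ℝ, |Y - z.2| < min δ' |z.2| →
      onX (map τ f) (fun k => if k ∈ s then z'.1 k else z.1 k) Y →
      (((fun k => if k ∈ s then z'.1 k else z.1 k), Y), y) ∈ ClosureReal f σ τ := by
    intro s
    induction s using Finset.induction_on with
    | empty =>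
      intro Y hY hYon
      simp only [Finset.notMem_empty, if_false] at hYon ⊢
      have e1 : Y ^ 2 = z.2 ^ 2 := by
        rw [show Y ^ 2 = eval z.1 (map τ f) from hYon]
        exact (show z.2 ^ 2 = eval z.1 (map τ f) from hon).symm
      rcases sq_eq_sq_iff_eq_or_eq_neg.1 e1 with h | h
      · rw [h]; exact hz
      · exfalso
        have := hY.trans_le (min_le_right _ _)
        rw [h] at this
        have e2 : -z.2 - z.2 = -(2 * z.2) := by ring
        rw [e2, abs_neg, abs_mul, abs_two] at this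
        linarith
    | insert j s hj ih =>
      intro Y hY hYon
      obtain ⟨Y₁, k1, k2⟩ := hsq (fun k => if k ∈ s then z'.1 k else z.1 k) (fun k => by
        by_cases hk : k ∈ s
        · simp only [hk, if_true]
          exact (h1 k).trans_le (min_le_left _ _)
        · simp only [hk, if_false, sub_self, norm_zero]
          exact hρ)
      rw [Real.norm_eq_abs] at k1
      have k3 := ih Y₁ k1 k2
      have e1 : (fun k => if k ∈ insert j s then z'.1 k else z.1 k) =
          shf (fun k => if k ∈ s then z'.1 k else z.1 k) j (z'.1 j - z.1 j) := by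
        funext k
        simp only [shf]
        by_cases hk : k = j
        · subst hk
          simp [hj]
        · rw [Pi.single_eq_of_ne hk]
          simp [hk]
      rw [e1] at hYon ⊢
      refine hmv j (_, Y₁) (fun k => ?_) ((k1.trans_le (min_le_left _ _)).trans_le (hle j)) k3 _ Y
        (((h1 j).trans_le ((min_le_right _ _).trans (min_le_left _ _))).trans_le (hle j))
        ((hY.trans_le (min_le_left _ _)).trans_le (hle j)) ?_ hYon
      · simp only
        by_cases hk : k ∈ s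
        · simp only [hk, if_true]
          exact ((h1 k).trans_le ((min_le_right _ _).trans (min_le_left _ _))).trans_le (hle j)
        · simp only [hk, if_false, sub_self, abs_zero]
          exact hδ j
      · rintro rfl
        have := hY.trans_le (min_le_right _ _)
        rw [zero_sub, abs_neg] at this
        exact lt_irrefl _ this
  have := key Finset.univ z'.2 (h2.trans_le (min_le_right _ _)) (by
    simp only [Finset.mem_univ, if_true]
    exact h3)
  simpa using this

/-- the closure is open along the real points, at the smooth points of the branch locus -/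
theorem nhd2 (hd : ∀ j, f.degreeOf j ≤ 4) (hI : ∀ j, Inf f σ y j) {z : (Fin m → ℝ) × ℝ}
    (hz : (z, y) ∈ ClosureReal f σ τ) (hw : z.2 = 0) {j : Fin m}
    (hj : eval z.1 (pderiv j (map τ f)) ≠ 0) :
    ∃ ε : ℝ, 0 < ε ∧ ∀ z' : (Fin m → ℝ) × ℝ, (∀ k, |z'.1 k - z.1 k| < ε) → |z'.2 - z.2| < ε →
      onX (map τ f) z'.1 z'.2 → (z', y) ∈ ClosureReal f σ τ := by
  have hon : onX (map τ f) z.1 z.2 := (on_of_closureR hz).1
  obtain ⟨δ, hδ, hmv⟩ := lm (τ := τ) hd (hI j) (z := z) (Or.inr hj)
  obtain ⟨t, Y, ht, hY, hY0, hYon⟩ := pos (j := j) (by rw [← hw]; exact hon) hj (half_pos hδ)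
  have h1 : ((shf z.1 j t, Y), y) ∈ ClosureReal f σ τ :=
    hmv z (fun k => by simpa using hδ) (by simpa using hδ) hz t Y (by linarith)
      (by rw [hw, sub_zero]; linarith) hY0 hYon
  obtain ⟨ε₁, hε₁, hn⟩ := nhd1 hd hI h1 hY0
  obtain ⟨ρ₁, hρ₁, hsq⟩ := sq_near hYon hY0 (ε := min ε₁ (δ / 2)) (lt_min hε₁ (half_pos hδ))
  have hcont : ∀ᶠ x in 𝓝 z.1, eval x (pderiv j (map τ f)) ≠ 0 :=
    ((MvPolynomial.continuous_eval _).continuousAt).eventually_ne hj
  obtain ⟨ρ₂, hρ₂, hne⟩ := Metric.eventually_nhds_iff_ball.1 hcont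
  set ε := min (min ρ₁ ρ₂) (min ε₁ (δ / 2)) with hε
  have hε0 : 0 < ε := lt_min (lt_min hρ₁ hρ₂) (lt_min hε₁ (half_pos hδ))
  have d1 : ε ≤ ρ₁ := (min_le_left _ _).trans (min_le_left _ _)
  have d2 : ε ≤ ρ₂ := (min_le_left _ _).trans (min_le_right _ _)
  have d3 : ε ≤ ε₁ := (min_le_right _ _).trans (min_le_left _ _)
  have d4 : ε ≤ δ / 2 := (min_le_right _ _).trans (min_le_right _ _)
  have key : ∀ z' : (Fin m → ℝ) × ℝ, (∀ k, |z'.1 k - z.1 k| < ε) → |z'.2 - z.2| < ε →
      z'.2 ≠ 0 → onX (map τ f) z'.1 z'.2 → (z', y) ∈ ClosureReal f σ τ := by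
    intro z' k1 k2 k3 k4
    obtain ⟨Y', g1, g2⟩ := hsq (shf z'.1 j t) (fun k => by
      rw [shf_sub]; exact (k1 k).trans_le d1)
    rw [Real.norm_eq_abs] at g1
    have g3 : ((shf z'.1 j t, Y'), y) ∈ ClosureReal f σ τ := hn (shf z'.1 j t, Y') (fun k => by
      change |shf z'.1 j t k - shf z.1 j t k| < _
      rw [shf_sub]; exact (k1 k).trans_le d3) (g1.trans_le (min_le_left _ _)) g2
    have g4 := hmv (shf z'.1 j t, Y') (fun k => by
        have e1 := abs_sub_le (shf z'.1 j t k) (z'.1 k) (z.1 k)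
        have e2 := shf_le z'.1 j t k
        have e3 := (k1 k).trans_le d4
        change |shf z'.1 j t k - z.1 k| < _
        linarith) (by
        have e1 := abs_sub_le Y' Y z.2
        have e2 := g1.trans_le (min_le_right _ _)
        change |Y' - z.2| < _
        simp only [hw, sub_zero] at e1 ⊢
        linarith) g3 (-t) z'.2 (by rw [abs_neg]; linarith) (k2.trans_le (d4.trans (by linarith))) k3
    simp only [shf_shf, add_neg_cancel, shf_zero] at g4
    exact g4 k4
  refine ⟨ε, hε0, fun z' k1 k2 k4 => ?_⟩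
  by_cases k3 : z'.2 = 0
  · have hj' : eval z'.1 (pderiv j (map τ f)) ≠ 0 := hne z'.1 (by
      rw [Metric.mem_ball, dist_pi_lt_iff hρ₂]
      intro k
      rw [Real.dist_eq]
      exact (k1 k).trans_le d2)
    obtain ⟨ρ₃, hρ₃, hρ₃le⟩ := fin_min (f := fun k => ε - |z'.1 k - z.1 k|) (fun k => sub_pos.2 (k1 k))
    rw [mem_cl]
    intro η hη
    obtain ⟨t', Y', g1, g2, g3, g4⟩ := pos (j := j) (by rw [← k3]; exact k4) hj'
      (ε := min (min ρ₃ ε) (η / 2)) (lt_min (lt_min hρ₃ hε0) (half_pos hη))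
    have g5 := key (shf z'.1 j t', Y') (fun k => by
      have e1 := abs_sub_le (shf z'.1 j t' k) (z'.1 k) (z.1 k)
      have e2 := shf_le z'.1 j t' k
      have e3 := hρ₃le k
      have e4 := g1.trans_le ((min_le_left _ _).trans (min_le_left _ _))
      change |shf z'.1 j t' k - z.1 k| < _
      linarith) (by
      change |Y' - z.2| < ε
      rw [hw, sub_zero]
      exact g2.trans_le ((min_le_left _ _).trans (min_le_right _ _))) g3 g4
    obtain ⟨a, b, m1, ⟨m2, m3⟩, m4⟩ := mem_cl.1 g5 (η / 2) (half_pos hη)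
    refine ⟨a, b, m1, ⟨fun k => ?_, ?_⟩, fun i => ⟨fun k => ((m4 i).1 k).trans (half_lt_self hη),
      (m4 i).2.trans (half_lt_self hη)⟩⟩
    · have e1 := abs_sub_le (τ (a k)) (shf z'.1 j t' k) (z'.1 k)
      have e2 := shf_le z'.1 j t' k
      have e3 := m2 k
      have e4 := g1.trans_le (min_le_right _ _)
      change |τ (a k) - shf z'.1 j t' k| < _ at e3
      change |τ (a k) - z'.1 k| < _
      linarith
    · have e1 := abs_sub_le (τ b) Y' z'.2
      have e4 := g2.trans_le (min_le_right _ _)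
      change |τ b - Y'| < _ at m3
      change |τ b - z'.2| < _
      simp only [k3, sub_zero] at e1 ⊢
      linarith
  · exact key z' k1 k2 k3 k4

/-- The smooth points of the double cover. -/
def Smooth {F : Type} [Field F] {m : ℕ} (g : MvPolynomial (Fin m) F) : Set ((Fin m → F) × F) :=
  {z | OnCover g z ∧ (z.2 ≠ 0 ∨ ∃ j, eval z.1 (pderiv j g) ≠ 0)}

/-- **The closure contains the whole component.** -/
theorem comp (hd : ∀ j, f.degreeOf j ≤ 4) (hI : ∀ j, Inf f σ y j) {z : (Fin m → ℝ) × ℝ}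
    (hz : (z, y) ∈ ClosureReal f σ τ) (hs : z ∈ Smooth (map τ f)) {z' : (Fin m → ℝ) × ℝ}
    (hz' : z' ∈ connectedComponentIn (Smooth (map τ f)) z) : (z', y) ∈ ClosureReal f σ τ := by
  obtain ⟨A, hA⟩ : ∃ A : Set ((Fin m → ℝ) × ℝ),
    A = {z' | OnCover (map τ f) z' → (z', y) ∈ ClosureReal f σ τ} := ⟨_, rfl⟩
  have h1 : ∀ z ∈ Smooth (map τ f), (z, y) ∈ ClosureReal f σ τ → z ∈ interior A := by
    rintro z ⟨-, h2⟩ h3
    have h4 : ∃ ε : ℝ, 0 < ε ∧ ∀ z' : (Fin m → ℝ) × ℝ, (∀ k, |z'.1 k - z.1 k| < ε) →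
        |z'.2 - z.2| < ε → onX (map τ f) z'.1 z'.2 → (z', y) ∈ ClosureReal f σ τ := by
      by_cases hw : z.2 = 0
      · obtain ⟨j, hj⟩ := h2.resolve_left (not_not.2 hw)
        exact nhd2 hd hI h3 hw hj
      · exact nhd1 hd hI h3 hw
    obtain ⟨ε, hε, h5⟩ := h4
    rw [mem_interior_iff_mem_nhds]
    refine Filter.mem_of_superset (Metric.ball_mem_nhds z hε) fun z' hz' => ?_
    rw [Metric.mem_ball, Prod.dist_eq, max_lt_iff, dist_pi_lt_iff hε] at hz'
    rw [hA]
    exact fun h6 => h5 z' (fun k => hz'.1 k) hz'.2 h6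
  have hV : IsOpen {z' : (Fin m → ℝ) × ℝ | (z', y) ∉ ClosureReal f σ τ} := by
    have : IsClosed {z' : (Fin m → ℝ) × ℝ | (z', y) ∈ ClosureReal f σ τ} :=
      isClosed_closure.preimage (by fun_prop : Continuous fun z' : (Fin m → ℝ) × ℝ => (z', y))
    exact this.isOpen_compl
  have hC : connectedComponentIn (Smooth (map τ f)) z ⊆ Smooth (map τ f) :=
    connectedComponentIn_subset _ _
  have h2 := isPreconnected_iff_subset_of_disjoint.1
    (isPreconnected_connectedComponentIn (F := Smooth (map τ f)) (x := z)) (interior A) _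
    isOpen_interior hV
    (fun w hw => by
      by_cases h : (w, y) ∈ ClosureReal f σ τ
      · exact Or.inl (h1 w (hC hw) h)
      · exact Or.inr h)
    (by
      rw [Set.eq_empty_iff_forall_notMem]
      rintro w ⟨hw, hw1, hw2⟩
      have := interior_subset hw1
      rw [hA] at this
      exact hw2 (this (hC hw).1))
  rcases h2 with h2 | h2
  · have := interior_subset (h2 hz')
    rw [hA] at this
    exact this (hC hz').1
  · exact absurd hz (h2 (mem_connectedComponentIn hs))

end nhd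

end Pool.Agent.L5helper15.KD
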