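import Pool.Agent.L5helper15.KD.Alg

/-! Multiples which fill a real neighbourhood of the origin and are close to the origin at the `p`-adic places -/

set_option autoImplicit false
set_option linter.unusedVariables false
set_option linter.unusedSectionVars false

open WeierstrassCurve Filter Topology

namespace Pool.Agent.L5helper15.KD

open Pool.Agent.Y720.MZ

section fill

variable {K : Type*} [Field K] [CharZero K] [DecidableEq K] {ι : Type*} [Fintype ι] {p : ι → ℕ}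
  [hp : ∀ i, Fact (p i).Prime] {σ : ∀ i, K →+* ℚ_[p i]} {τ : K →+* ℝ} {a b c : K}
  {C ρ : ι → ℝ} {C' ρ' : ℝ}

theorem fill0 (hD : dsc a b c ≠ 0) (hB : ∀ i, Bd (av (σ i)) a b c (C i) (ρ i))
    (hB' : Bd (av τ) a b c C' ρ') {S : Pt a b c} (hS : ∀ n : ℕ, n ≠ 0 → n • S ≠ 0)
    {r : ι → ℝ} (hr0 : ∀ i, 0 < r i) (hr : ∀ i, r i ≤ ρ i) {ξ : ℝ} (hξ : |ξ| ≤ ρ' / 6) {η : ℝ}
    (hη : 0 < η) :
    ∃ Q : Pt a b c, (∀ i, Nb (av (σ i)) (ρ i) (r i) Q) ∧ Nb (av τ) ρ' (ρ' / 3) Q ∧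
      |τ (TT Q) - ξ| < η := by
  have hρ' := hB'.hρ
  obtain ⟨N, hN, hN1, hN2⟩ := near_all (σ := σ) (τ := τ) hD hB hB' hS hr0 hr
    (show 0 < min (η / 4) (ρ' / 3) from lt_min (by positivity) (by positivity))
  have hU0 : TT (N • S) ≠ 0 := TT_ne hB' ((min_le_right _ _).trans (by linarith)) hN2 (hS N hN)
  have hU1 : |τ (TT (N • S))| ≤ η / 4 := hN2.le.trans (min_le_left _ _)
  have hU2 : Nb (av τ) ρ' (ρ' / 3) (N • S) := hN2.mono (hN2.le.trans (min_le_right _ _))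
  have hτ0 : τ (TT (N • S)) ≠ 0 := (map_ne_zero τ).2 hU0
  have hpos : 0 < 9 / 10 * |τ (TT (N • S))| := by
    have := abs_pos.2 hτ0
    positivity
  obtain ⟨k, hk⟩ := exists_nat_ge (|ξ| / (9 / 10 * |τ (TT (N • S))|))
  rw [div_le_iff₀ hpos] at hk
  obtain ⟨j, hj1, hj2⟩ := R1 hB' hU2 hτ0 ξ k (0 : Pt a b c) (Nb_zero (by positivity))
    (by rw [TT_zero, map_zero, zero_sub, abs_neg]; linarith)
    (by
      rw [TT_zero, map_zero, zero_sub, abs_neg]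
      nlinarith)
  rw [zero_add] at hj1 hj2
  refine ⟨j • (N • S), fun i => U2z (hB i) (hr i) (hN1 i) j, hj1, lt_of_le_of_lt hj2 ?_⟩
  linarith

end fill

section orig

variable {K : Type*} [Field K] [CharZero K] {L : Type*} [NontriviallyNormedField L]

/-- **The origin of the resolvent is the base point of the quartic.** -/
theorem orig (σ : K →+* L) {w q₁ q₂ q₃ q₄ : K} {C ρ : ℝ}
    (hB : Bd (av σ) q₂ (rb w q₁ q₃ q₄) (rc w q₁ q₂ q₃ q₄) C ρ) {η : ℝ} (hη : 0 < η) :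
    ∃ r : ℝ, 0 < r ∧ r ≤ ρ ∧ ∀ x y : K,
      y ^ 2 = x ^ 3 + q₂ * x ^ 2 + rb w q₁ q₃ q₄ * x + rc w q₁ q₂ q₃ q₄ → y ≠ 0 → x ≠ 0 →
      ‖σ (x / y)‖ ≤ r → ‖σ (1 / y)‖ ≤ ρ →
      x ^ 2 - 4 * w ^ 2 * q₄ ≠ 0 ∧ ‖σ (tg w q₁ q₃ q₄ x y)‖ < η ∧
        ‖σ (ug w q₁ q₃ q₄ x y * tg w q₁ q₃ q₄ x y - w) - σ w‖ < η := by
  have hC0 : CharZero L := charZero_of_injective_ringHom σ.injective
  have hρ := hB.hρ
  -- functions of `T = x / y` and `κ = (1 / y) / T ^ 3`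
  let Dn : L × L → L := fun e => 1 - 4 * σ w ^ 2 * σ q₄ * e.2 ^ 2 * e.1 ^ 4
  let Nn : L × L → L := fun e => e.2 * (σ q₁ * e.1 + 2 * σ w + 2 * σ w ^ 2 * σ q₃ * (e.2 * e.1 ^ 3))
  let Tn : L × L → L := fun e => e.1 * Nn e / Dn e
  let Yn : L × L → L := fun e => Nn e / Dn e * (1 + σ w * (e.2 * e.1 ^ 3) * (σ q₃ + 2 * σ q₄ * Tn e)) - 2 * σ w
  have hDc : Continuous Dn := by fun_prop
  have hNc : Continuous Nn := by fun_prop
  have hD0 : Dn (0, 1) = 1 := by simp [Dn]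
  have hN0 : Nn (0, 1) = 2 * σ w := by simp [Nn]
  have hD1 : Dn (0, 1) ≠ 0 := by rw [hD0]; exact one_ne_zero
  have hT : ContinuousAt Tn (0, 1) :=
    ContinuousAt.div (continuousAt_fst.mul hNc.continuousAt) hDc.continuousAt hD1
  have hY : ContinuousAt Yn (0, 1) := by
    have h1 : ContinuousAt (fun e => Nn e / Dn e) (0, 1) :=
      ContinuousAt.div hNc.continuousAt hDc.continuousAt hD1
    exact (h1.mul (continuousAt_const.add ((by fun_prop : ContinuousAt (fun e : L × L =>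
      σ w * (e.2 * e.1 ^ 3)) (0, 1)).mul (continuousAt_const.add (continuousAt_const.mul hT))))).sub
      continuousAt_const
  have hT0 : Tn (0, 1) = 0 := by simp [Tn]
  have hY0 : Yn (0, 1) = 0 := by
    simp only [Yn, hN0, hD0, hT0]
    simp
  have v1 : ∀ᶠ e in 𝓝 ((0 : L), (1 : L)), Dn e ≠ 0 := hDc.continuousAt.eventually_ne hD1
  have v2 : ∀ᶠ e in 𝓝 ((0 : L), (1 : L)), ‖Tn e‖ < η := by
    have h1 := hT.tendsto.norm
    rw [hT0, norm_zero] at h1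
    exact h1.eventually_lt_const hη
  have v3 : ∀ᶠ e in 𝓝 ((0 : L), (1 : L)), ‖Yn e‖ < η := by
    have h1 := hY.tendsto.norm
    rw [hY0, norm_zero] at h1
    exact h1.eventually_lt_const hη
  obtain ⟨ε, hε, hb⟩ := Metric.eventually_nhds_iff_ball.1 (v1.and (v2.and v3))
  have hC := hB.hC
  set r : ℝ := min ρ (min (ε / 2) (ε / (32 * C))) with hr
  have hr0 : 0 < r := lt_min hρ (lt_min (by positivity) (by positivity))
  have hr1 : r ≤ ρ := min_le_left _ _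
  have hr2 : r ≤ ε / 2 := (min_le_right _ _).trans (min_le_left _ _)
  have hr3 : r ≤ ε / (32 * C) := (min_le_right _ _).trans (min_le_right _ _)
  refine ⟨r, hr0, hr1, fun x y h hy hx h1 h2 => ?_⟩
  have hyσ : σ y ≠ 0 := (map_ne_zero σ).2 hy
  have hxσ : σ x ≠ 0 := (map_ne_zero σ).2 hx
  obtain ⟨T, hTd⟩ : ∃ T, T = x / y := ⟨_, rfl⟩
  obtain ⟨s, hsd⟩ : ∃ s, s = 1 / y := ⟨_, rfl⟩
  have hT' : T ≠ 0 := by rw [hTd]; exact div_ne_zero hx hy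
  have hs' : s ≠ 0 := by rw [hsd]; exact one_div_ne_zero hy
  rw [← hTd] at h1
  rw [← hsd] at h2
  have hse : s = T ^ 3 + q₂ * T ^ 2 * s + rb w q₁ q₃ q₄ * T * s ^ 2 + rc w q₁ q₂ q₃ q₄ * s ^ 3 := by
    rw [hTd, hsd]; exact ts_eqn hy h
  have hss : (av σ) s ≤ 2 * (av σ) T ^ 3 := s_small hB (h1.trans hr1) h2 hse
  set κ : K := s / T ^ 3 with hκ
  have hκs : s = κ * T ^ 3 := by rw [hκ, div_mul_cancel₀ _ (pow_ne_zero 3 hT')]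
  have hTn : 0 < ‖σ T‖ := norm_pos_iff.2 ((map_ne_zero σ).2 hT')
  have hT1 : ‖σ T‖ ≤ 1 / 100 := (h1.trans hr1).trans hB.ρ_le
  have hκ2 : ‖σ κ‖ ≤ 2 := by
    rw [hκ, map_div₀, map_pow, norm_div, norm_pow, div_le_iff₀ (by positivity)]
    exact hss
  -- `κ` is close to `1`
  have hκe : κ - 1 = T ^ 2 * (q₂ * κ + rb w q₁ q₃ q₄ * T ^ 2 * κ ^ 2 + rc w q₁ q₂ q₃ q₄ * T ^ 4 * κ ^ 3) := by
    apply mul_left_cancel₀ (pow_ne_zero 3 hT')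
    rw [hκs] at hse
    linear_combination hse
  have hκ1 : ‖σ κ - 1‖ < ε := by
    have e1 : σ κ - 1 = σ (κ - 1) := by rw [map_sub, map_one]
    rw [e1, hκe, map_mul, map_pow, norm_mul, norm_pow]
    have hq : ‖σ q₂‖ ≤ C := hB.ha
    have hb' : ‖σ (rb w q₁ q₃ q₄)‖ ≤ C := hB.hb
    have hc' : ‖σ (rc w q₁ q₂ q₃ q₄)‖ ≤ C := hB.hc
    have e2 : ‖σ (q₂ * κ + rb w q₁ q₃ q₄ * T ^ 2 * κ ^ 2 + rc w q₁ q₂ q₃ q₄ * T ^ 4 * κ ^ 3)‖ ≤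
        14 * C := by
      simp only [map_add, map_mul, map_pow]
      refine (norm_add_le _ _).trans ?_
      refine (add_le_add_left (norm_add_le _ _) _).trans ?_
      simp only [norm_mul, norm_pow]
      have a1 : ‖σ T‖ ^ 2 ≤ 1 := pow_le_one₀ (norm_nonneg _) (by linarith)
      have a2 : ‖σ T‖ ^ 4 ≤ 1 := pow_le_one₀ (norm_nonneg _) (by linarith)
      have a3 : ‖σ κ‖ ^ 2 ≤ 2 ^ 2 := by gcongr
      have a4 : ‖σ κ‖ ^ 3 ≤ 2 ^ 3 := by gcongr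
      have a5 : ‖σ q₂‖ * ‖σ κ‖ ≤ C * 2 := by gcongr
      have a6 : ‖σ (rb w q₁ q₃ q₄)‖ * ‖σ T‖ ^ 2 * ‖σ κ‖ ^ 2 ≤ C * 1 * 2 ^ 2 := by gcongr
      have a7 : ‖σ (rc w q₁ q₂ q₃ q₄)‖ * ‖σ T‖ ^ 4 * ‖σ κ‖ ^ 3 ≤ C * 1 * 2 ^ 3 := by gcongr
      linarith
    have e3 : ‖σ T‖ ^ 2 ≤ r * 1 := by
      rw [sq]
      gcongr
      linarith
    calc ‖σ T‖ ^ 2 * ‖σ (q₂ * κ + rb w q₁ q₃ q₄ * T ^ 2 * κ ^ 2 + rc w q₁ q₂ q₃ q₄ * T ^ 4 * κ ^ 3)‖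
        ≤ (r * 1) * (14 * C) := by gcongr
      _ ≤ (ε / (32 * C) * 1) * (14 * C) := by gcongr
      _ = 14 / 32 * ε := by field_simp
      _ < ε := by linarith
  obtain ⟨b1, b2, b3⟩ := hb (σ T, σ κ) (by
    rw [Metric.mem_ball, Prod.dist_eq]
    refine max_lt ?_ ?_
    · rw [dist_eq_norm, sub_zero]
      linarith
    · rw [dist_eq_norm]; exact hκ1)
  -- the formulas
  have hxe : x = T / s := by rw [hTd, hsd]; field_simp
  have hye : y = 1 / s := by rw [hsd, one_div_one_div]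
  have hTs : s ^ 2 = κ ^ 2 * T ^ 6 := by rw [hκs]; ring
  have hden : x ^ 2 - 4 * w ^ 2 * q₄ = T ^ 2 / s ^ 2 * (1 - 4 * w ^ 2 * q₄ * κ ^ 2 * T ^ 4) := by
    rw [hxe]
    have : 1 - 4 * w ^ 2 * q₄ * κ ^ 2 * T ^ 4 = 1 - 4 * w ^ 2 * q₄ * (s ^ 2 / T ^ 2) := by
      rw [hTs]; field_simp
    rw [this]
    field_simp
  have hDσ : σ (1 - 4 * w ^ 2 * q₄ * κ ^ 2 * T ^ 4) = Dn (σ T, σ κ) := by
    simp [Dn, map_ofNat]
  have hDne : (1 - 4 * w ^ 2 * q₄ * κ ^ 2 * T ^ 4) ≠ 0 := by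
    intro h0
    apply b1
    rw [← hDσ, h0, map_zero]
  have hdne : x ^ 2 - 4 * w ^ 2 * q₄ ≠ 0 := by
    rw [hden]
    exact mul_ne_zero (div_ne_zero (pow_ne_zero 2 hT') (pow_ne_zero 2 hs')) hDne
  obtain ⟨Nk, hNk⟩ : ∃ Nk, Nk = κ * (q₁ * T + 2 * w + 2 * w ^ 2 * q₃ * (κ * T ^ 3)) := ⟨_, rfl⟩
  have hNσ : σ Nk = Nn (σ T, σ κ) := by
    rw [hNk]; simp [Nn, map_ofNat]
  have hnum : q₁ * x + 2 * w ^ 2 * q₃ + 2 * w * y = Nk * (T ^ 3 / s ^ 2) := by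
    have e1 : κ * (T ^ 3 / s ^ 2) = 1 / s := by
      have : κ = s / T ^ 3 := hκ
      rw [this]
      field_simp
    have e2 : Nk * (T ^ 3 / s ^ 2) = (κ * (T ^ 3 / s ^ 2)) * (q₁ * T + 2 * w + 2 * w ^ 2 * q₃ * s) := by
      rw [hNk, ← hκs]; ring
    rw [e2, e1, hxe, hye]
    field_simp
    ring
  have htg : tg w q₁ q₃ q₄ x y = T * Nk / (1 - 4 * w ^ 2 * q₄ * κ ^ 2 * T ^ 4) := by
    rw [tg, hden, hnum]
    have hTs2 : T ^ 2 / s ^ 2 ≠ 0 := div_ne_zero (pow_ne_zero 2 hT') (pow_ne_zero 2 hs')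
    have e1 : Nk * (T ^ 3 / s ^ 2) = (T ^ 2 / s ^ 2) * (T * Nk) := by
      field_simp
    rw [e1, mul_div_mul_left _ _ hTs2]
  have htσ : σ (tg w q₁ q₃ q₄ x y) = Tn (σ T, σ κ) := by
    rw [htg, map_div₀, map_mul, hNσ, hDσ]
  have hYe : ug w q₁ q₃ q₄ x y * tg w q₁ q₃ q₄ x y - w - w = Nk / (1 - 4 * w ^ 2 * q₄ * κ ^ 2 * T ^ 4) *
      (1 + w * (κ * T ^ 3) * (q₃ + 2 * q₄ * tg w q₁ q₃ q₄ x y)) - 2 * w := by
    have e1 : ug w q₁ q₃ q₄ x y = (1 + w * (κ * T ^ 3) * (q₃ + 2 * q₄ * tg w q₁ q₃ q₄ x y)) / T := by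
      rw [ug, ← hκs, div_eq_div_iff hx hT', hxe, hye]
      field_simp
    rw [e1]
    have e2 : tg w q₁ q₃ q₄ x y / T = Nk / (1 - 4 * w ^ 2 * q₄ * κ ^ 2 * T ^ 4) := by
      rw [htg]; field_simp
    rw [← e2]
    field_simp
    ring
  have hYσ : σ (ug w q₁ q₃ q₄ x y * tg w q₁ q₃ q₄ x y - w) - σ w = Yn (σ T, σ κ) := by
    rw [← map_sub, hYe, map_sub, map_mul, map_div₀, hNσ, hDσ]
    simp only [Yn, map_add, map_mul, map_pow, map_one, map_ofNat, htσ]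
  refine ⟨hdne, ?_, ?_⟩
  · rw [htσ]; exact b2
  · rw [hYσ]; exact b3

end orig

end Pool.Agent.L5helper15.KD
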