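import Pool.Agent.L5helper15.KD.Comp

/-! Moves at the real place only, all nonarchimedean places -/

set_option autoImplicit false
set_option linter.unusedVariables false
set_option linter.unusedSectionVars false

open WeierstrassCurve Filter Topology

namespace Pool.Agent.L5helper15.KD

open Pool.Agent.Y720.MZ

section ultra

variable {K : Type*} [Field K] [CharZero K] [DecidableEq K] {a b c : K} {C ρ : ℝ}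
  {L : Type*} [NontriviallyNormedField L] [IsUltrametricDist L] {σ : K →+* L}

lemma av_nag (σ : K →+* L) : IsNonarchimedean (av σ) := by
  intro x y
  simp only [av_apply, map_add]
  exact IsUltrametricDist.isNonarchimedean_norm _ _

lemma U1g (hB : Bd (av σ) a b c C ρ) {P Q : Pt a b c} {r : ℝ} (hr : r ≤ ρ)
    (hP : Nb (av σ) ρ r P) (hQ : Nb (av σ) ρ r Q) : Nb (av σ) ρ r (P + Q) := by
  obtain ⟨h1, h2⟩ := add_near hB hr hP hQ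
  refine h1.mono ?_
  have hv := av_nag σ
  have e1 : TT (P + Q) = (TT (P + Q) - TT P - TT Q) + (TT P + TT Q) := by ring
  rw [e1]
  refine na_add hv ?_ (na_add hv hP.le hQ.le)
  refine h2.trans ?_
  have h3 := hP.le
  have h4 := hQ.le
  have h5 := hB.ρ_le
  have h6 := (av σ).nonneg (TT P)
  have h7 := (av σ).nonneg (TT Q)
  have : (av σ) (TT P) * (av σ) (TT Q) ≤ r * 1 := by
    have h8 : (av σ) (TT Q) ≤ 1 := by linarith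
    exact mul_le_mul h3 h8 h7 (h6.trans h3)
  nlinarith

lemma U2g (hB : Bd (av σ) a b c C ρ) {P : Pt a b c} {r : ℝ} (hr : r ≤ ρ)
    (hP : Nb (av σ) ρ r P) (n : ℕ) : Nb (av σ) ρ r (n • P) := by
  have hr0 : 0 ≤ r := ((av σ).nonneg _).trans hP.le
  induction n with
  | zero => rw [zero_smul]; exact Nb_zero hr0
  | succ n ih => rw [succ_nsmul]; exact U1g hB hr ih hP

lemma U2zg (hB : Bd (av σ) a b c C ρ) {P : Pt a b c} {r : ℝ} (hr : r ≤ ρ)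
    (hP : Nb (av σ) ρ r P) (n : ℤ) : Nb (av σ) ρ r (n • P) := by
  obtain ⟨m, rfl | rfl⟩ := n.eq_nat_or_neg
  · rw [natCast_zsmul]; exact U2g hB hr hP m
  · rw [neg_smul, natCast_zsmul]; exact (U2g hB hr hP m).neg

end ultra

section fill

variable {K : Type*} [Field K] [CharZero K] [DecidableEq K] {ι : Type*} [Fintype ι]
  {L : ι → Type*} [∀ i, NontriviallyNormedField (L i)] [∀ i, IsUltrametricDist (L i)]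
  [∀ i, ProperSpace (L i)] {L₀ : Type*} [NontriviallyNormedField L₀] [IsUltrametricDist L₀]
  [ProperSpace L₀]
  {σ : ∀ i, K →+* L i} {σ₀ : K →+* L₀} {τ : K →+* ℝ} {a b c : K}
  {C ρ : ι → ℝ} {C₀ ρ₀ C' ρ' : ℝ}

lemma near_allg (hD : dsc a b c ≠ 0) (hB : ∀ i, Bd (av (σ i)) a b c (C i) (ρ i))
    (hB₀ : Bd (av σ₀) a b c C₀ ρ₀)
    (hB' : Bd (av τ) a b c C' ρ') {S : Pt a b c} (hS : ∀ n : ℕ, n ≠ 0 → n • S ≠ 0)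
    {r : ι → ℝ} (hr0 : ∀ i, 0 < r i) (hr : ∀ i, r i ≤ ρ i) {r₀ : ℝ} (hr₀ : 0 < r₀)
    (hr₀' : r₀ ≤ ρ₀) {r' : ℝ} (hr' : 0 < r') :
    ∃ N : ℕ, N ≠ 0 ∧ (∀ i, Nb (av (σ i)) (ρ i) (r i) (N • S)) ∧ Nb (av σ₀) ρ₀ r₀ (N • S) ∧
      Nb (av τ) ρ' r' (N • S) := by
  classical
  have hmul : ∀ N : ℕ, N ≠ 0 → ∀ n : ℕ, n ≠ 0 → n • (N • S) ≠ 0 := by
    intro N hN n hn
    rw [← mul_smul]
    exact hS _ (mul_ne_zero hn hN)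
  have h1 : ∀ s : Finset ι, ∃ N : ℕ, N ≠ 0 ∧ ∀ i ∈ s, Nb (av (σ i)) (ρ i) (r i) (N • S) := by
    intro s
    induction s using Finset.induction_on with
    | empty => exact ⟨1, one_ne_zero, by simp⟩
    | insert i s hi ih =>
      obtain ⟨N, hN, hNs⟩ := ih
      obtain ⟨m, hm, hmN⟩ := accum_near (σ i) hD (hB i) (hmul N hN) (hr0 i)
      refine ⟨m * N, mul_ne_zero hm hN, fun j hj => ?_⟩
      rw [mul_smul]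
      rcases Finset.mem_insert.1 hj with rfl | hj
      · exact hmN
      · exact U2g (hB j) (hr j) (hNs j hj) m
  obtain ⟨N, hN, hNs⟩ := h1 Finset.univ
  obtain ⟨k, hk, hkN⟩ := accum_near σ₀ hD hB₀ (hmul N hN) hr₀
  obtain ⟨m, hm, hmN⟩ := accum_near τ hD hB' (hmul (k * N) (mul_ne_zero hk hN)) hr'
  refine ⟨m * (k * N), mul_ne_zero hm (mul_ne_zero hk hN), fun i => ?_, ?_, ?_⟩
  · rw [← mul_assoc, mul_smul]; exact U2g (hB i) (hr i) (hNs i (Finset.mem_univ i)) _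
  · rw [mul_smul]
    have : (k * N) • S = k • (N • S) := mul_smul _ _ _
    rw [this]
    exact U2g hB₀ hr₀' hkN m
  · rw [mul_smul]; exact hmN

theorem fill0g (hD : dsc a b c ≠ 0) (hB : ∀ i, Bd (av (σ i)) a b c (C i) (ρ i))
    (hB₀ : Bd (av σ₀) a b c C₀ ρ₀)
    (hB' : Bd (av τ) a b c C' ρ') {S : Pt a b c} (hS : ∀ n : ℕ, n ≠ 0 → n • S ≠ 0)
    {r : ι → ℝ} (hr0 : ∀ i, 0 < r i) (hr : ∀ i, r i ≤ ρ i) {r₀ : ℝ} (hr₀ : 0 < r₀)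
    (hr₀' : r₀ ≤ ρ₀) {ξ : ℝ} (hξ : |ξ| ≤ ρ' / 6) {η : ℝ} (hη : 0 < η) :
    ∃ Q : Pt a b c, (∀ i, Nb (av (σ i)) (ρ i) (r i) Q) ∧ Nb (av σ₀) ρ₀ r₀ Q ∧
      Nb (av τ) ρ' (ρ' / 3) Q ∧ |τ (TT Q) - ξ| < η := by
  have hρ' := hB'.hρ
  obtain ⟨N, hN, hN1, hN0, hN2⟩ := near_allg (σ := σ) (σ₀ := σ₀) (τ := τ) hD hB hB₀ hB' hS hr0 hr
    hr₀ hr₀' (show 0 < min (η / 4) (ρ' / 3) from lt_min (by positivity) (by positivity))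
  have hU0 : TT (N • S) ≠ 0 := TT_ne hB' ((min_le_right _ _).trans (by linarith)) hN2 (hS N hN)
  have hU1 : |τ (TT (N • S))| ≤ η / 4 := hN2.le.trans (min_le_left _ _)
  have hU2 : Nb (av τ) ρ' (ρ' / 3) (N • S) := hN2.mono (hN2.le.trans (min_le_right _ _))
  have hτ0 : τ (TT (N • S)) ≠ 0 := (map_ne_zero τ).2 hU0
  have hpos : 0 < 9 / 10 * |τ (TT (N • S))| := by
    have := abs_pos.2 hτ0
    positivity
  obtain ⟨k, hk⟩ := exists_nat_ge (|ξ| / (9 / 10 * |τ (TT (N • S))|))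
  rw [div_le_iff₀ hpos] at hk
  obtain ⟨j, hj1, hj2⟩ := R1 hB' hU2 hτ0 ξ k (0 : Pt a b c) (Nb_zero (by positivity))
    (by rw [TT_zero, map_zero, zero_sub, abs_neg]; linarith)
    (by
      rw [TT_zero, map_zero, zero_sub, abs_neg]
      nlinarith)
  rw [zero_add] at hj1 hj2
  refine ⟨j • (N • S), fun i => U2zg (hB i) (hr i) (hN1 i) j, U2zg hB₀ hr₀' hN0 j, hj1,
    lt_of_le_of_lt hj2 ?_⟩
  linarith

end fill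

section move

variable {K : Type*} [Field K] [CharZero K]

theorem move1g [DecidableEq K] {ι : Type*} [Fintype ι]
    {L : ι → Type*} [∀ i, NontriviallyNormedField (L i)] [∀ i, IsUltrametricDist (L i)]
    [∀ i, ProperSpace (L i)] {L₀ : Type*} [NontriviallyNormedField L₀] [IsUltrametricDist L₀]
    [ProperSpace L₀] (σ : ∀ i, K →+* L i) (σ₀ : K →+* L₀) {τ : K →+* ℝ}
    {θ : K × (Fin 4 → K)}
    (hD : dsc (tA θ) (tB θ) (tC θ) ≠ 0) {S : Pt (tA θ) (tB θ) (tC θ)}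
    (hS : ∀ n : ℕ, n ≠ 0 → n • S ≠ 0) {C' ρ' : ℝ}
    (hB' : Bd (av τ) (tA θ) (tB θ) (tC θ) C' ρ') {u t : ℝ}
    (hrel : Rel (τ θ.1) (τ (θ.2 0)) (τ (θ.2 1)) (τ (θ.2 2)) (τ (θ.2 3)) u t)
    (hx0 : xu (τ (θ.2 1)) (τ (θ.2 2)) (τ (θ.2 3)) u t ≠ 0)
    (hy0 : yu (τ θ.1) (τ (θ.2 1)) (τ (θ.2 2)) (τ (θ.2 3)) u t ≠ 0)
    (hd0 : xu (τ (θ.2 1)) (τ (θ.2 2)) (τ (θ.2 3)) u t ^ 2 - 4 * τ θ.1 ^ 2 * τ (θ.2 3) ≠ 0)
    (hx : |xu (τ (θ.2 1)) (τ (θ.2 2)) (τ (θ.2 3)) u t / yu (τ θ.1) (τ (θ.2 1)) (τ (θ.2 2)) (τ (θ.2 3)) u t| ≤ ρ' / 6)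
    (hy : |1 / yu (τ θ.1) (τ (θ.2 1)) (τ (θ.2 2)) (τ (θ.2 3)) u t| ≤ ρ') {η : ℝ} (hη : 0 < η) :
    ∃ s Z : K, Z ^ 2 = qv θ.1 θ.2 s ∧ (∀ i, ‖σ i s‖ < η ∧ ‖σ i Z - σ i θ.1‖ < η) ∧
      (‖σ₀ s‖ < η ∧ ‖σ₀ Z - σ₀ θ.1‖ < η) ∧
      |τ s - t| < η ∧ |τ Z - (u * t - τ θ.1)| < η := by
  have hρ' := hB'.hρ
  obtain ⟨x, hxd⟩ : ∃ x, x = xu (τ (θ.2 1)) (τ (θ.2 2)) (τ (θ.2 3)) u t := ⟨_, rfl⟩
  obtain ⟨y, hyd⟩ : ∃ y, y = yu (τ θ.1) (τ (θ.2 1)) (τ (θ.2 2)) (τ (θ.2 3)) u t := ⟨_, rfl⟩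
  have heqn := hrel.eqn
  have hteq := hrel.t_eq hd0
  have hueq : u = (y + τ θ.1 * (τ (θ.2 2) + 2 * τ (θ.2 3) * t)) / x := by
    rw [hxd, hyd, yu, eq_div_iff hx0]
    ring
  rw [← hxd, ← hyd] at heqn hx
  rw [← hxd, ← hyd] at hteq
  rw [← hxd] at hx0 hd0
  rw [← hyd] at hy0 hy
  have htg : tg (τ θ.1) (τ (θ.2 0)) (τ (θ.2 2)) (τ (θ.2 3)) x y = t := by
    rw [tg]; exact hteq.symm
  have hug : ug (τ θ.1) (τ (θ.2 0)) (τ (θ.2 2)) (τ (θ.2 3)) x y = u := by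
    rw [ug, htg]; exact hueq.symm
  -- the product `u t`
  obtain ⟨ε, hε, hεp⟩ : ∃ ε : ℝ, 0 < ε ∧ ∀ u' t' : ℝ, |t' - t| < ε → |u' - u| < ε →
      |t' - t| < η ∧ |u' * t' - u * t| < η := by
    have hc : Continuous fun e : ℝ × ℝ => e.1 * e.2 := continuous_mul
    obtain ⟨ε, hε, h⟩ := Metric.continuousAt_iff.1 (hc.continuousAt (x := (u, t))) η hη
    refine ⟨min ε η, lt_min hε hη, fun u' t' h1 h2 => ⟨h1.trans_le (min_le_right _ _), ?_⟩⟩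
    have := h (x := (u', t')) (by
      rw [Prod.dist_eq]
      exact max_lt (h2.trans_le (min_le_left _ _)) (h1.trans_le (min_le_left _ _)))
    exact this
  obtain ⟨η₁, hη₁, hc⟩ := conv_cont2 τ (w := θ.1) (q₁ := θ.2 0) (q₂ := θ.2 1) (q₃ := θ.2 2)
    (q₄ := θ.2 3) hB' heqn hy0 hx0 (by
      rw [Real.norm_eq_abs]; linarith) hy hd0 hε
  -- the p-adic places
  choose C ρ hB using fun i => Bd_some (σ i) (tA θ) (tB θ) (tC θ)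
  choose r hr0 hr1 hr2 using fun i => orig (σ i) (w := θ.1) (q₁ := θ.2 0) (q₂ := θ.2 1)
    (q₃ := θ.2 2) (q₄ := θ.2 3) (hB i) hη
  obtain ⟨C₀, ρ₀, hB₀⟩ := Bd_some σ₀ (tA θ) (tB θ) (tC θ)
  obtain ⟨r₀, hr₀0, hr₀1, hr₀2⟩ := orig σ₀ (w := θ.1) (q₁ := θ.2 0) (q₂ := θ.2 1)
    (q₃ := θ.2 2) (q₄ := θ.2 3) hB₀ hη
  have hxy0 : 0 < |x / y| := abs_pos.2 (div_ne_zero hx0 hy0)
  obtain ⟨Q, hQ1, hQ0, hQ2, hQ3⟩ := fill0g (σ := σ) (σ₀ := σ₀) (τ := τ) hD hB hB₀ hB' hS hr0 hr1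
    hr₀0 hr₀1 hx (lt_min hη₁ hxy0)
  have hTT : TT Q ≠ 0 := by
    intro h0
    rw [h0, map_zero, zero_sub, abs_neg] at hQ3
    exact absurd (hQ3.trans_le (min_le_right _ _)) (lt_irrefl _)
  rcases Q with _ | ⟨X, W, hQ⟩
  · exact absurd rfl hTT
  have hXW := (cv_ns.1 hQ).1
  simp only [TT_some] at hQ3 hTT
  obtain ⟨hW, hn1, hn2⟩ := (Nb_some hQ).1 hQ2
  have hX : X ≠ 0 := by
    rintro rfl
    rw [zero_div] at hTT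
    exact hTT rfl
  obtain ⟨g1, g2, g3⟩ := hc X W hXW hW (hn1.trans (by linarith)) hn2
    (hQ3.trans_le (min_le_left _ _))
  rw [htg] at g2
  rw [hug] at g3
  obtain ⟨g4, g5⟩ := hεp _ _ g2 g3
  have hrel' := rel_of (w := θ.1) (q₁ := θ.2 0) (q₂ := θ.2 1) (q₃ := θ.2 2) (q₄ := θ.2 3) hX g1 hXW
  refine ⟨tg θ.1 (θ.2 0) (θ.2 2) (θ.2 3) X W,
    ug θ.1 (θ.2 0) (θ.2 2) (θ.2 3) X W * tg θ.1 (θ.2 0) (θ.2 2) (θ.2 3) X W - θ.1,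
    hrel'.quartic, fun i => ?_, ?_, g4, ?_⟩
  · obtain ⟨hW', hn1', hn2'⟩ := (Nb_some hQ).1 (hQ1 i)
    obtain ⟨-, k1, k2⟩ := hr2 i X W hXW hW hX hn1' hn2'
    exact ⟨k1, k2⟩
  · obtain ⟨hW', hn1', hn2'⟩ := (Nb_some hQ).1 hQ0
    obtain ⟨-, k1, k2⟩ := hr₀2 X W hXW hW hX hn1' hn2'
    exact ⟨k1, k2⟩
  · rw [map_sub, map_mul]
    have : τ (ug θ.1 (θ.2 0) (θ.2 2) (θ.2 3) X W) * τ (tg θ.1 (θ.2 0) (θ.2 2) (θ.2 3) X W) - τ θ.1 -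
        (u * t - τ θ.1) = τ (ug θ.1 (θ.2 0) (θ.2 2) (θ.2 3) X W) *
        τ (tg θ.1 (θ.2 0) (θ.2 2) (θ.2 3) X W) - u * t := by ring
    rw [this]
    exact g5

/-- the size conditions hold close to a nonsingular base point -/
theorem near3 (τ : K →+* ℝ) {θ' : ℝ × (Fin 4 → ℝ)} (h0 : θ'.1 ≠ 0 ∨ θ'.2 0 ≠ 0) :
    ∃ C' ρ' δ : ℝ, 0 < δ ∧ ∀ θ : K × (Fin 4 → K), |τ θ.1 - θ'.1| < δ →
      (∀ j, |τ (θ.2 j) - θ'.2 j| < δ) → Bd (av τ) (tA θ) (tB θ) (tC θ) C' ρ' ∧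
      ∀ t' Y' : ℝ, |t'| < δ → |Y' - θ'.1| < δ →
      Y' ^ 2 = qv (τ θ.1) (fun j => τ (θ.2 j)) t' → (t' = 0 ∧ Y' = τ θ.1) ∨
      ∃ u, Rel (τ θ.1) (τ (θ.2 0)) (τ (θ.2 1)) (τ (θ.2 2)) (τ (θ.2 3)) u t' ∧
        xu (τ (θ.2 1)) (τ (θ.2 2)) (τ (θ.2 3)) u t' ≠ 0 ∧
        yu (τ θ.1) (τ (θ.2 1)) (τ (θ.2 2)) (τ (θ.2 3)) u t' ≠ 0 ∧
        xu (τ (θ.2 1)) (τ (θ.2 2)) (τ (θ.2 3)) u t' ^ 2 - 4 * τ θ.1 ^ 2 * τ (θ.2 3) ≠ 0 ∧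
        |xu (τ (θ.2 1)) (τ (θ.2 2)) (τ (θ.2 3)) u t' /
          yu (τ θ.1) (τ (θ.2 1)) (τ (θ.2 2)) (τ (θ.2 3)) u t'| ≤ ρ' / 6 ∧
        |1 / yu (τ θ.1) (τ (θ.2 1)) (τ (θ.2 2)) (τ (θ.2 3)) u t'| ≤ ρ' ∧
        u * t' - τ θ.1 = Y' := by
  set M : ℝ := |θ'.1| + |θ'.2 0| + |θ'.2 1| + |θ'.2 2| + |θ'.2 3| + 1 with hM
  have n0 := abs_nonneg θ'.1
  have n1 := abs_nonneg (θ'.2 0)
  have n2 := abs_nonneg (θ'.2 1)
  have n3 := abs_nonneg (θ'.2 2)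
  have n4 := abs_nonneg (θ'.2 3)
  have hM1 : 1 ≤ M := by rw [hM]; linarith
  have hM4 : 0 < M ^ 4 := by positivity
  obtain ⟨B, hB⟩ := size2 hM1 (ρ' := 1 / (100 * (6 * M ^ 4))) (by positivity)
  obtain ⟨δ, hδ, hn⟩ := near2 h0 B
  refine ⟨6 * M ^ 4, 1 / (100 * (6 * M ^ 4)), min δ 1, lt_min hδ one_pos, fun θ hw hq => ?_⟩
  have hw1 : |τ θ.1| ≤ M := by
    have := abs_sub_abs_le_abs_sub (τ θ.1) θ'.1
    have := hw.trans_le (min_le_right _ _)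
    rw [hM]; linarith
  have hq1 : ∀ j, |τ (θ.2 j)| ≤ M := by
    intro j
    have h1 := abs_sub_abs_le_abs_sub (τ (θ.2 j)) (θ'.2 j)
    have h2 := (hq j).trans_le (min_le_right _ _)
    have h3 : |θ'.2 j| ≤ |θ'.2 0| + |θ'.2 1| + |θ'.2 2| + |θ'.2 3| := by
      fin_cases j <;> simp <;> linarith
    rw [hM]; linarith
  refine ⟨Bd_of_le (τ := τ) hM1 hw1 hq1, fun t' Y' ht hY he => ?_⟩
  rcases hn (τ θ.1) (fun j => τ (θ.2 j)) t' Y' (hw.trans_le (min_le_left _ _))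
    (fun j => (hq j).trans_le (min_le_left _ _)) (ht.trans_le (min_le_left _ _))
    (hY.trans_le (min_le_left _ _)) he with h1 | ⟨u, h1, h2, h3⟩
  · exact Or.inl h1
  · right
    obtain ⟨k1, k2, k3, k4, k5⟩ := hB (τ θ.1) (τ (θ.2 1)) (τ (θ.2 2)) (τ (θ.2 3)) u t' hw1 (hq1 1)
      (hq1 2) (hq1 3) (ht.trans_le (min_le_right _ _)).le h1
    exact ⟨u, h2, k1, k2, k3, k4, k5, h3⟩

end move

end Pool.Agent.L5helper15.KD
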