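import Pool.Agent.L5helper15.KD.Fill

/-! Rational points of a genus one curve close to a real point and close to the base point at the `p`-adic places -/

set_option autoImplicit false
set_option linter.unusedVariables false
set_option linter.unusedSectionVars false

open WeierstrassCurve Filter Topology

namespace Pool.Agent.L5helper15.KD

open Pool.Agent.Y720.MZ

section cont

variable {K : Type*} [Field K] [CharZero K] {L : Type*} [NontriviallyNormedField L]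

/-- the quartic point is a continuous function of the parameter of the resolvent -/
theorem conv_cont2 (σ : K →+* L) {w q₁ q₂ q₃ q₄ : K} {C ρ : ℝ}
    (hB : Bd (av σ) q₂ (rb w q₁ q₃ q₄) (rc w q₁ q₂ q₃ q₄) C ρ) {x y : L}
    (hxy : y ^ 2 = x ^ 3 + σ q₂ * x ^ 2 + rb (σ w) (σ q₁) (σ q₃) (σ q₄) * x +
      rc (σ w) (σ q₁) (σ q₂) (σ q₃) (σ q₄)) (hy : y ≠ 0) (hx0 : x ≠ 0) (hx : ‖x / y‖ ≤ ρ)
    (hs : ‖1 / y‖ ≤ ρ) (hD : x ^ 2 - 4 * σ w ^ 2 * σ q₄ ≠ 0) {η' : ℝ} (hη' : 0 < η') :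
    ∃ η : ℝ, 0 < η ∧ ∀ x' y' : K,
      y' ^ 2 = x' ^ 3 + q₂ * x' ^ 2 + rb w q₁ q₃ q₄ * x' + rc w q₁ q₂ q₃ q₄ → y' ≠ 0 →
      ‖σ (x' / y')‖ ≤ ρ → ‖σ (1 / y')‖ ≤ ρ → ‖σ (x' / y') - x / y‖ < η →
      x' ^ 2 - 4 * w ^ 2 * q₄ ≠ 0 ∧
      ‖σ (tg w q₁ q₃ q₄ x' y') - tg (σ w) (σ q₁) (σ q₃) (σ q₄) x y‖ < η' ∧
      ‖σ (ug w q₁ q₃ q₄ x' y') - ug (σ w) (σ q₁) (σ q₃) (σ q₄) x y‖ < η' := by
  have : CharZero L := charZero_of_injective_ringHom σ.injective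
  have hrb : σ (rb w q₁ q₃ q₄) = rb (σ w) (σ q₁) (σ q₃) (σ q₄) := by
    simp [rb, map_ofNat]
  have hrc : σ (rc w q₁ q₂ q₃ q₄) = rc (σ w) (σ q₁) (σ q₂) (σ q₃) (σ q₄) := by
    simp [rc, map_ofNat]
  let D : L × L → L := fun e => (e.1 / e.2) ^ 2 - 4 * σ w ^ 2 * σ q₄
  let T : L × L → L := fun e => tg (σ w) (σ q₁) (σ q₃) (σ q₄) (e.1 / e.2) (1 / e.2)
  let U : L × L → L := fun e => ug (σ w) (σ q₁) (σ q₃) (σ q₄) (e.1 / e.2) (1 / e.2)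
  have hs0 : 1 / y ≠ 0 := one_div_ne_zero hy
  have e1 : x / y / (1 / y) = x := by field_simp
  have e2 : 1 / (1 / y) = y := one_div_one_div y
  have hsn : ContinuousAt (fun e : L × L => e.1 / e.2) (x / y, 1 / y) :=
    ContinuousAt.div continuousAt_fst continuousAt_snd hs0
  have hsn' : ContinuousAt (fun e : L × L => 1 / e.2) (x / y, 1 / y) :=
    ContinuousAt.div continuousAt_const continuousAt_snd hs0
  have hDc : ContinuousAt D (x / y, 1 / y) := (hsn.pow 2).sub continuousAt_const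
  have hD0 : D (x / y, 1 / y) = x ^ 2 - 4 * σ w ^ 2 * σ q₄ := by
    simp only [D, e1]
  have hT0 : T (x / y, 1 / y) = tg (σ w) (σ q₁) (σ q₃) (σ q₄) x y := by
    simp only [T, e1, e2]
  have hU0 : U (x / y, 1 / y) = ug (σ w) (σ q₁) (σ q₃) (σ q₄) x y := by
    simp only [U, e1, e2]
  have hTc : ContinuousAt T (x / y, 1 / y) := by
    have h1 : ContinuousAt (fun e : L × L => σ q₁ * (e.1 / e.2) + 2 * σ w ^ 2 * σ q₃ + 2 * σ w * (1 / e.2))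
        (x / y, 1 / y) :=
      ((hsn.const_mul _).add continuousAt_const).add (hsn'.const_mul _)
    exact h1.div hDc (by
      change D (x / y, 1 / y) ≠ 0
      rw [hD0]; exact hD)
  have hUc : ContinuousAt U (x / y, 1 / y) := by
    have h1 : ContinuousAt (fun e : L × L => 1 / e.2 + σ w * (σ q₃ + 2 * σ q₄ * T e)) (x / y, 1 / y) :=
      hsn'.add ((continuousAt_const.add (hTc.const_mul _)).const_mul _)
    exact h1.div hsn (by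
      change x / y / (1 / y) ≠ 0
      rw [e1]; exact hx0)
  have v1 : ∀ᶠ e in 𝓝 (x / y, 1 / y), D e ≠ 0 := hDc.eventually_ne (by rw [hD0]; exact hD)
  have v2 : ∀ᶠ e in 𝓝 (x / y, 1 / y), ‖T e - T (x / y, 1 / y)‖ < η' := by
    have h1 := (hTc.tendsto.sub_const (T (x / y, 1 / y))).norm
    rw [sub_self, norm_zero] at h1
    exact h1.eventually_lt_const hη'
  have v3 : ∀ᶠ e in 𝓝 (x / y, 1 / y), ‖U e - U (x / y, 1 / y)‖ < η' := by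
    have h1 := (hUc.tendsto.sub_const (U (x / y, 1 / y))).norm
    rw [sub_self, norm_zero] at h1
    exact h1.eventually_lt_const hη'
  obtain ⟨η, hη, hb⟩ := Metric.eventually_nhds_iff_ball.1 (v1.and (v2.and v3))
  refine ⟨η, hη, fun x' y' hxy' hy' h1 h2 h3 => ?_⟩
  have hBL : Bd (av (RingHom.id L)) (σ q₂) (rb (σ w) (σ q₁) (σ q₃) (σ q₄))
      (rc (σ w) (σ q₁) (σ q₂) (σ q₃) (σ q₄)) C ρ :=
    { hC := hB.hC
      ha := hB.ha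
      hb := by rw [← hrb]; exact hB.hb
      hc := by rw [← hrc]; exact hB.hc
      hρ := hB.hρ
      hCρ := hB.hCρ }
  have q1 := ts_eqn hy hxy
  have q2 := congrArg σ (ts_eqn hy' hxy')
  simp only [map_add, map_mul, map_pow, hrb, hrc] at q2
  have h4 : ‖σ (1 / y') - 1 / y‖ ≤ ‖σ (x' / y') - x / y‖ :=
    s_lip hBL (v := av (RingHom.id L)) h1 hx h2 hs q2 q1
  have hmem : (σ (x' / y'), σ (1 / y')) ∈ Metric.ball (x / y, 1 / y) η := by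
    rw [Metric.mem_ball, Prod.dist_eq]
    refine max_lt ?_ ?_
    · rw [dist_eq_norm]; exact h3
    · rw [dist_eq_norm]; exact h4.trans_lt h3
  obtain ⟨b1, b2, b3⟩ := hb _ hmem
  have hy'' : σ y' ≠ 0 := (map_ne_zero σ).2 hy'
  have e3 : σ (x' / y') / σ (1 / y') = σ x' := by
    rw [map_div₀, map_div₀, map_one]; field_simp
  have e4 : 1 / σ (1 / y') = σ y' := by
    rw [map_div₀, map_one, one_div_one_div]
  have hDe : D (σ (x' / y'), σ (1 / y')) = σ (x' ^ 2 - 4 * w ^ 2 * q₄) := by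
    simp only [D, e3]; simp [map_ofNat]
  have hTe : T (σ (x' / y'), σ (1 / y')) = σ (tg w q₁ q₃ q₄ x' y') := by
    simp only [T, e3, e4]; simp [tg, map_ofNat]
  have hUe : U (σ (x' / y'), σ (1 / y')) = σ (ug w q₁ q₃ q₄ x' y') := by
    simp only [U, e3, e4]; simp [ug, tg, map_ofNat]
  refine ⟨?_, ?_, ?_⟩
  · intro h0
    apply b1
    rw [hDe, h0, map_zero]
  · rw [← hTe, ← hT0]; exact b2
  · rw [← hUe, ← hU0]; exact b3

end cont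

section move

variable {K : Type*} [Field K] [CharZero K] {ι : Type*} [Fintype ι] {p : ι → ℕ}
  [hp : ∀ i, Fact (p i).Prime] {σ : ∀ i, K →+* ℚ_[p i]} {τ : K →+* ℝ}

/-- some constants -/
lemma Bd_some {L : Type*} [NontriviallyNormedField L] (σ : K →+* L) (a b c : K) :
    ∃ C ρ : ℝ, Bd (av σ) a b c C ρ := by
  have a1 := norm_nonneg (σ a)
  have a2 := norm_nonneg (σ b)
  have a3 := norm_nonneg (σ c)
  set C : ℝ := 1 + ‖σ a‖ + ‖σ b‖ + ‖σ c‖ with hC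
  have h1 : 1 ≤ C := by rw [hC]; linarith
  refine ⟨C, 1 / (100 * C), h1, ?_, ?_, ?_, by positivity, ?_⟩
  · change ‖σ a‖ ≤ C
    rw [hC]; linarith
  · change ‖σ b‖ ≤ C
    rw [hC]; linarith
  · change ‖σ c‖ ≤ C
    rw [hC]; linarith
  · have : C ≠ 0 := by linarith
    field_simp
    norm_num

theorem move1 [DecidableEq K] {θ : K × (Fin 4 → K)}
    (hD : dsc (tA θ) (tB θ) (tC θ) ≠ 0) {S : Pt (tA θ) (tB θ) (tC θ)}
    (hS : ∀ n : ℕ, n ≠ 0 → n • S ≠ 0) {C' ρ' : ℝ}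
    (hB' : Bd (av τ) (tA θ) (tB θ) (tC θ) C' ρ') {u t : ℝ}
    (hrel : Rel (τ θ.1) (τ (θ.2 0)) (τ (θ.2 1)) (τ (θ.2 2)) (τ (θ.2 3)) u t)
    (hx0 : xu (τ (θ.2 1)) (τ (θ.2 2)) (τ (θ.2 3)) u t ≠ 0)
    (hy0 : yu (τ θ.1) (τ (θ.2 1)) (τ (θ.2 2)) (τ (θ.2 3)) u t ≠ 0)
    (hd0 : xu (τ (θ.2 1)) (τ (θ.2 2)) (τ (θ.2 3)) u t ^ 2 - 4 * τ θ.1 ^ 2 * τ (θ.2 3) ≠ 0)
    (hx : |xu (τ (θ.2 1)) (τ (θ.2 2)) (τ (θ.2 3)) u t / yu (τ θ.1) (τ (θ.2 1)) (τ (θ.2 2)) (τ (θ.2 3)) u t| ≤ ρ' / 6)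
    (hy : |1 / yu (τ θ.1) (τ (θ.2 1)) (τ (θ.2 2)) (τ (θ.2 3)) u t| ≤ ρ') {η : ℝ} (hη : 0 < η) :
    ∃ s Z : K, Z ^ 2 = qv θ.1 θ.2 s ∧ (∀ i, ‖σ i s‖ < η ∧ ‖σ i Z - σ i θ.1‖ < η) ∧
      |τ s - t| < η ∧ |τ Z - (u * t - τ θ.1)| < η := by
  have hρ' := hB'.hρ
  obtain ⟨x, hxd⟩ : ∃ x, x = xu (τ (θ.2 1)) (τ (θ.2 2)) (τ (θ.2 3)) u t := ⟨_, rfl⟩
  obtain ⟨y, hyd⟩ : ∃ y, y = yu (τ θ.1) (τ (θ.2 1)) (τ (θ.2 2)) (τ (θ.2 3)) u t := ⟨_, rfl⟩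
  have heqn := hrel.eqn
  have hteq := hrel.t_eq hd0
  have hueq : u = (y + τ θ.1 * (τ (θ.2 2) + 2 * τ (θ.2 3) * t)) / x := by
    rw [hxd, hyd, yu, eq_div_iff hx0]
    ring
  rw [← hxd, ← hyd] at heqn hx
  rw [← hxd, ← hyd] at hteq
  rw [← hxd] at hx0 hd0
  rw [← hyd] at hy0 hy
  have htg : tg (τ θ.1) (τ (θ.2 0)) (τ (θ.2 2)) (τ (θ.2 3)) x y = t := by
    rw [tg]; exact hteq.symm
  have hug : ug (τ θ.1) (τ (θ.2 0)) (τ (θ.2 2)) (τ (θ.2 3)) x y = u := by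
    rw [ug, htg]; exact hueq.symm
  -- the product `u t`
  obtain ⟨ε, hε, hεp⟩ : ∃ ε : ℝ, 0 < ε ∧ ∀ u' t' : ℝ, |t' - t| < ε → |u' - u| < ε →
      |t' - t| < η ∧ |u' * t' - u * t| < η := by
    have hc : Continuous fun e : ℝ × ℝ => e.1 * e.2 := continuous_mul
    obtain ⟨ε, hε, h⟩ := Metric.continuousAt_iff.1 (hc.continuousAt (x := (u, t))) η hη
    refine ⟨min ε η, lt_min hε hη, fun u' t' h1 h2 => ⟨h1.trans_le (min_le_right _ _), ?_⟩⟩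
    have := h (x := (u', t')) (by
      rw [Prod.dist_eq]
      exact max_lt (h2.trans_le (min_le_left _ _)) (h1.trans_le (min_le_left _ _)))
    exact this
  obtain ⟨η₁, hη₁, hc⟩ := conv_cont2 τ (w := θ.1) (q₁ := θ.2 0) (q₂ := θ.2 1) (q₃ := θ.2 2)
    (q₄ := θ.2 3) hB' heqn hy0 hx0 (by
      rw [Real.norm_eq_abs]; linarith) hy hd0 hε
  -- the p-adic places
  choose C ρ hB using fun i => Bd_some (σ i) (tA θ) (tB θ) (tC θ)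
  choose r hr0 hr1 hr2 using fun i => orig (σ i) (w := θ.1) (q₁ := θ.2 0) (q₂ := θ.2 1)
    (q₃ := θ.2 2) (q₄ := θ.2 3) (hB i) hη
  have hxy0 : 0 < |x / y| := abs_pos.2 (div_ne_zero hx0 hy0)
  obtain ⟨Q, hQ1, hQ2, hQ3⟩ := fill0 (σ := σ) (τ := τ) hD hB hB' hS hr0 hr1 hx
    (lt_min hη₁ hxy0)
  have hTT : TT Q ≠ 0 := by
    intro h0
    rw [h0, map_zero, zero_sub, abs_neg] at hQ3
    exact absurd (hQ3.trans_le (min_le_right _ _)) (lt_irrefl _)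
  rcases Q with _ | ⟨X, W, hQ⟩
  · exact absurd rfl hTT
  have hXW := (cv_ns.1 hQ).1
  simp only [TT_some] at hQ3 hTT
  obtain ⟨hW, hn1, hn2⟩ := (Nb_some hQ).1 hQ2
  have hX : X ≠ 0 := by
    rintro rfl
    rw [zero_div] at hTT
    exact hTT rfl
  obtain ⟨g1, g2, g3⟩ := hc X W hXW hW (hn1.trans (by linarith)) hn2
    (hQ3.trans_le (min_le_left _ _))
  rw [htg] at g2
  rw [hug] at g3
  obtain ⟨g4, g5⟩ := hεp _ _ g2 g3
  have hrel' := rel_of (w := θ.1) (q₁ := θ.2 0) (q₂ := θ.2 1) (q₃ := θ.2 2) (q₄ := θ.2 3) hX g1 hXW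
  refine ⟨tg θ.1 (θ.2 0) (θ.2 2) (θ.2 3) X W,
    ug θ.1 (θ.2 0) (θ.2 2) (θ.2 3) X W * tg θ.1 (θ.2 0) (θ.2 2) (θ.2 3) X W - θ.1,
    hrel'.quartic, fun i => ?_, g4, ?_⟩
  · obtain ⟨hW', hn1', hn2'⟩ := (Nb_some hQ).1 (hQ1 i)
    obtain ⟨-, k1, k2⟩ := hr2 i X W hXW hW hX hn1' hn2'
    exact ⟨k1, k2⟩
  · rw [map_sub, map_mul]
    have : τ (ug θ.1 (θ.2 0) (θ.2 2) (θ.2 3) X W) * τ (tg θ.1 (θ.2 0) (θ.2 2) (θ.2 3) X W) - τ θ.1 -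
        (u * t - τ θ.1) = τ (ug θ.1 (θ.2 0) (θ.2 2) (θ.2 3) X W) *
        τ (tg θ.1 (θ.2 0) (θ.2 2) (θ.2 3) X W) - u * t := by ring
    rw [this]
    exact g5

end move

end Pool.Agent.L5helper15.KD
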