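import Pool.Agent.L5helper15.KD.Move

/-! Rational points of a genus one curve close to a real point and close to the base point at the `p`-adic places, uniformly -/

set_option autoImplicit false
set_option linter.unusedVariables false
set_option linter.unusedSectionVars false

open WeierstrassCurve Filter Topology

namespace Pool.Agent.L5helper15.KD

open Pool.Agent.Y720.MZ

section size

/-- large parameters are close to the origin of the resolvent -/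
lemma size2 {M ρ' : ℝ} (hM : 1 ≤ M) (hρ' : 0 < ρ') : ∃ B : ℝ, ∀ w q₂ q₃ q₄ u t : ℝ,
    |w| ≤ M → |q₂| ≤ M → |q₃| ≤ M → |q₄| ≤ M → |t| ≤ 1 → B ≤ |u| →
    xu q₂ q₃ q₄ u t ≠ 0 ∧ yu w q₂ q₃ q₄ u t ≠ 0 ∧ xu q₂ q₃ q₄ u t ^ 2 - 4 * w ^ 2 * q₄ ≠ 0 ∧
      |xu q₂ q₃ q₄ u t / yu w q₂ q₃ q₄ u t| ≤ ρ' / 6 ∧ |1 / yu w q₂ q₃ q₄ u t| ≤ ρ' := by
  refine ⟨12 * M ^ 2 + 12 / ρ', fun w q₂ q₃ q₄ u t hw h2 h3 h4 ht hu => ?_⟩
  obtain ⟨A, hA⟩ : ∃ A, A = |u| := ⟨_, rfl⟩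
  have hu2 : u ^ 2 = A ^ 2 := by rw [hA, sq_abs]
  rw [← hA] at hu
  have hM2 : 1 ≤ M ^ 2 := one_le_pow₀ hM
  have hMM : M ≤ M ^ 2 := by nlinarith
  have hρd : 0 < 12 / ρ' := by positivity
  have hA12 : 12 * M ^ 2 ≤ A := by linarith
  have hAρ : 12 / ρ' ≤ A := by linarith
  have hA0 : 12 ≤ A := by linarith
  obtain ⟨e, he⟩ : ∃ e, e = q₂ + q₃ * t + q₄ * t ^ 2 := ⟨_, rfl⟩
  have het : |e| ≤ 3 * M := by
    rw [he]
    have a1 : |q₃ * t| ≤ M * 1 := by rw [abs_mul]; gcongr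
    have a2 : |q₄ * t ^ 2| ≤ M * 1 := by
      rw [abs_mul, abs_pow]
      have : |t| ^ 2 ≤ 1 := pow_le_one₀ (abs_nonneg _) ht
      gcongr
    calc |q₂ + q₃ * t + q₄ * t ^ 2| ≤ |q₂| + |q₃ * t| + |q₄ * t ^ 2| := abs_add_three _ _ _
      _ ≤ 3 * M := by linarith
  obtain ⟨x, hx⟩ : ∃ x, x = xu q₂ q₃ q₄ u t := ⟨_, rfl⟩
  obtain ⟨y, hy⟩ : ∃ y, y = yu w q₂ q₃ q₄ u t := ⟨_, rfl⟩
  have hxe : x = A ^ 2 - e := by rw [hx, he, xu, hu2]
  have hAA : 12 * A ≤ A ^ 2 := by nlinarith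
  have hx1 : A ^ 2 / 2 ≤ x := by
    have := (abs_le.1 het).2
    rw [hxe]
    nlinarith
  have hx2 : 6 * A ≤ x := by linarith
  have hx0 : 0 < x := by linarith
  have hx3 : 1 ≤ x := by linarith
  have hye : y = u * x - w * (q₃ + 2 * q₄ * t) := by rw [hy, hx]; rfl
  have hwt : |w * (q₃ + 2 * q₄ * t)| ≤ 3 * M ^ 2 := by
    have a1 : |q₃ + 2 * q₄ * t| ≤ 3 * M := by
      have : |2 * q₄ * t| ≤ 2 * M * 1 := by
        rw [abs_mul, abs_mul, abs_two]; gcongr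
      calc |q₃ + 2 * q₄ * t| ≤ |q₃| + |2 * q₄ * t| := abs_add_le _ _
        _ ≤ 3 * M := by linarith
    rw [abs_mul]
    calc |w| * |q₃ + 2 * q₄ * t| ≤ M * (3 * M) := by gcongr
      _ = 3 * M ^ 2 := by ring
  have hux : |u * x| = A * x := by rw [abs_mul, ← hA, abs_of_pos hx0]
  have hAx : 6 * M ^ 2 ≤ A * x := by nlinarith
  have hyl : A * x / 2 ≤ |y| := by
    have := abs_sub_abs_le_abs_sub (u * x) (w * (q₃ + 2 * q₄ * t))
    rw [← hye, hux] at this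
    linarith
  have hAx0 : 0 < A * x := by positivity
  have hy0 : 0 < |y| := by linarith
  rw [← hx, ← hy]
  refine ⟨hx0.ne', abs_pos.1 hy0, ?_, ?_, ?_⟩
  · have a1 : |4 * w ^ 2 * q₄| ≤ 4 * M ^ 2 * M := by
      rw [abs_mul, abs_mul, abs_pow, abs_of_pos (by norm_num : (0 : ℝ) < 4)]
      gcongr
    have a2 := (abs_le.1 a1).2
    have a3 : 6 * (12 * M ^ 2) ≤ x := by linarith
    have a4 : (72 * M ^ 2) ^ 2 ≤ x ^ 2 := by
      have : 72 * M ^ 2 ≤ x := by linarith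
      gcongr
    have a5 : 4 * M ^ 2 * M < (72 * M ^ 2) ^ 2 := by nlinarith
    intro h0
    linarith
  · rw [abs_div, abs_of_pos hx0, div_le_iff₀ hy0]
    have a1 : 12 ≤ A * ρ' := by rwa [div_le_iff₀ hρ'] at hAρ
    have a2 : ρ' / 6 * (A * x / 2) ≤ ρ' / 6 * |y| := by gcongr
    have a3 : x ≤ ρ' / 6 * (A * x / 2) := by nlinarith
    linarith
  · rw [abs_div, abs_one, div_le_iff₀ hy0]
    have a1 : 12 ≤ A * ρ' := by rwa [div_le_iff₀ hρ'] at hAρ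
    have a2 : ρ' * (A * x / 2) ≤ ρ' * |y| := by gcongr
    have a3 : 1 ≤ ρ' * (A * x / 2) := by nlinarith
    linarith

/-- close to a nonsingular base point the slope is large -/
lemma near2 {w₀ : ℝ} {q₀ : Fin 4 → ℝ} (h : w₀ ≠ 0 ∨ q₀ 0 ≠ 0) (B : ℝ) : ∃ δ : ℝ, 0 < δ ∧
    ∀ (w : ℝ) (q : Fin 4 → ℝ) (t Y : ℝ), |w - w₀| < δ → (∀ j, |q j - q₀ j| < δ) → |t| < δ →
      |Y - w₀| < δ → Y ^ 2 = qv w q t → (t = 0 ∧ Y = w) ∨
        ∃ u, B ≤ |u| ∧ Rel w (q 0) (q 1) (q 2) (q 3) u t ∧ u * t - w = Y := by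
  have hB1 : 0 < |B| + 1 := by positivity
  have hBB : B ≤ |B| + 1 := by linarith [le_abs_self B]
  by_cases hw : w₀ = 0
  · have hq := h.resolve_left (not_not.2 hw)
    have hq0 : 0 < |q₀ 0| := abs_pos.2 hq
    set M : ℝ := |q₀ 1| + |q₀ 2| + |q₀ 3| + 1 with hM
    have hM1 : 1 ≤ M := by
      have := abs_nonneg (q₀ 1)
      have := abs_nonneg (q₀ 2)
      have := abs_nonneg (q₀ 3)
      rw [hM]; linarith
    set δ : ℝ := min 1 (min (|q₀ 0| / (8 * M)) (|q₀ 0| / (4 * (|B| + 1)))) with hδ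
    have d1 : δ ≤ 1 := min_le_left _ _
    have d2 : δ ≤ |q₀ 0| / (8 * M) := (min_le_right _ _).trans (min_le_left _ _)
    have d3 : δ ≤ |q₀ 0| / (4 * (|B| + 1)) := (min_le_right _ _).trans (min_le_right _ _)
    have hδ0 : 0 < δ := lt_min one_pos (lt_min (by positivity) (by positivity))
    refine ⟨δ, hδ0, fun w q t Y hww hqq ht hY he => ?_⟩
    rw [hw, sub_zero] at hww hY
    obtain ⟨g, hg⟩ : ∃ g, g = q 0 + q 1 * t + q 2 * t ^ 2 + q 3 * t ^ 3 := ⟨_, rfl⟩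
    have hYg : Y ^ 2 - w ^ 2 = t * g := by rw [he, hg, qv]; ring
    have hgl : |q₀ 0| / 2 ≤ |g| := by
      have b1 : |q 1| ≤ M := by
        have := abs_sub_abs_le_abs_sub (q 1) (q₀ 1)
        have := hqq 1
        have := abs_nonneg (q₀ 2)
        have := abs_nonneg (q₀ 3)
        rw [hM]; linarith
      have b2 : |q 2| ≤ M := by
        have := abs_sub_abs_le_abs_sub (q 2) (q₀ 2)
        have := hqq 2
        have := abs_nonneg (q₀ 1)
        have := abs_nonneg (q₀ 3)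
        rw [hM]; linarith
      have b3 : |q 3| ≤ M := by
        have := abs_sub_abs_le_abs_sub (q 3) (q₀ 3)
        have := hqq 3
        have := abs_nonneg (q₀ 1)
        have := abs_nonneg (q₀ 2)
        rw [hM]; linarith
      have t1 : |t| ≤ 1 := by linarith
      have c1 : |q 1 * t| ≤ M * δ := by rw [abs_mul]; gcongr
      have c2 : |q 2 * t ^ 2| ≤ M * δ := by
        rw [abs_mul, abs_pow]
        have : |t| ^ 2 ≤ δ := by nlinarith [abs_nonneg t]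
        gcongr
      have c3 : |q 3 * t ^ 3| ≤ M * δ := by
        rw [abs_mul, abs_pow]
        have h0 := abs_nonneg t
        have h1 : |t| ^ 2 ≤ 1 := pow_le_one₀ h0 t1
        have : |t| ^ 3 ≤ δ := by nlinarith
        gcongr
      have c0 : |q 0 - q₀ 0| ≤ M * δ := by
        have := (hqq 0).le
        nlinarith
      have c4 : M * δ ≤ |q₀ 0| / 8 := by
        rw [le_div_iff₀ (by positivity)] at d2
        linarith
      have c5 : |g - q₀ 0| ≤ 4 * (M * δ) := by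
        have e1 : g - q₀ 0 = (q 0 - q₀ 0) + q 1 * t + (q 2 * t ^ 2 + q 3 * t ^ 3) := by rw [hg]; ring
        rw [e1]
        refine (abs_add_three _ _ _).trans ?_
        have := abs_add_le (q 2 * t ^ 2) (q 3 * t ^ 3)
        linarith
      have c6 := abs_sub_abs_le_abs_sub (q₀ 0) g
      rw [abs_sub_comm] at c6
      linarith
    have hg0 : 0 < |g| := by linarith
    by_cases hYw : Y = w
    · left
      rw [hYw, sub_self] at hYg
      exact ⟨(mul_eq_zero.1 hYg.symm).resolve_right (abs_pos.1 hg0), hYw⟩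
    · right
      have hYw' : Y - w ≠ 0 := sub_ne_zero.2 hYw
      have hut : g / (Y - w) * t = Y + w := by
        rw [div_mul_eq_mul_div, div_eq_iff hYw']
        linear_combination -hYg
      refine ⟨g / (Y - w), ?_, ?_, ?_⟩
      · rw [abs_div, le_div_iff₀ (abs_pos.2 hYw')]
        have e1 : |Y - w| ≤ 2 * δ := by
          have := abs_sub Y w
          linarith
        have e2 : (|B| + 1) * (2 * δ) ≤ |q₀ 0| / 2 := by
          rw [le_div_iff₀ (by positivity)] at d3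
          linarith
        calc B * |Y - w| ≤ (|B| + 1) * |Y - w| := by gcongr
          _ ≤ (|B| + 1) * (2 * δ) := by gcongr
          _ ≤ |g| := by linarith
      · unfold Rel
        rw [hut, hg]
        field_simp
        ring
      · rw [hut]; ring
  · have hw0 : 0 < |w₀| := abs_pos.2 hw
    set δ : ℝ := min (|w₀| / 2) (|w₀| / (|B| + 1)) with hδ
    have d1 : δ ≤ |w₀| / 2 := min_le_left _ _
    have d2 : δ ≤ |w₀| / (|B| + 1) := min_le_right _ _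
    refine ⟨δ, lt_min (by positivity) (by positivity), fun w q t Y hww hqq ht hY he => ?_⟩
    have hs : |w₀| ≤ |Y + w| := by
      have e1 : 2 * w₀ = (Y + w) - ((Y - w₀) + (w - w₀)) := by ring
      have e2 : 2 * |w₀| ≤ |Y + w| + (|Y - w₀| + |w - w₀|) := by
        rw [← abs_two, ← abs_mul, e1]
        refine (abs_sub _ _).trans ?_
        have := abs_add_le (Y - w₀) (w - w₀)
        linarith
      linarith
    have hYg : (Y - w) * (Y + w) = t * (q 0 + q 1 * t + q 2 * t ^ 2 + q 3 * t ^ 3) := by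
      have : (Y - w) * (Y + w) = Y ^ 2 - w ^ 2 := by ring
      rw [this, he, qv]; ring
    have hs0 : Y + w ≠ 0 := abs_pos.1 (lt_of_lt_of_le hw0 hs)
    by_cases ht0 : t = 0
    · left
      rw [ht0, zero_mul] at hYg
      exact ⟨ht0, sub_eq_zero.1 ((mul_eq_zero.1 hYg).resolve_right hs0)⟩
    · right
      have hut : (Y + w) / t * t = Y + w := div_mul_cancel₀ _ ht0
      refine ⟨(Y + w) / t, ?_, ?_, ?_⟩
      · rw [abs_div, le_div_iff₀ (abs_pos.2 ht0)]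
        rw [le_div_iff₀ hB1] at d2
        calc B * |t| ≤ (|B| + 1) * |t| := by gcongr
          _ ≤ (|B| + 1) * δ := by gcongr
          _ ≤ |Y + w| := by linarith
      · unfold Rel
        rw [hut, div_mul_eq_mul_div, div_eq_iff ht0]
        linear_combination hYg
      · rw [hut]; ring

end size

section move

variable {K : Type*} [Field K] [CharZero K] {ι : Type*} [Fintype ι] {p : ι → ℕ}
  [hp : ∀ i, Fact (p i).Prime] {σ : ∀ i, K →+* ℚ_[p i]} {τ : K →+* ℝ}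

lemma Bd_of_le {M : ℝ} (hM : 1 ≤ M) {θ : K × (Fin 4 → K)} (h1 : |τ θ.1| ≤ M)
    (h2 : ∀ j, |τ (θ.2 j)| ≤ M) :
    Bd (av τ) (tA θ) (tB θ) (tC θ) (6 * M ^ 4) (1 / (100 * (6 * M ^ 4))) := by
  have hM4 : 1 ≤ M ^ 4 := one_le_pow₀ hM
  have hMM : M ≤ M ^ 4 := by
    calc M = M ^ 1 := (pow_one M).symm
      _ ≤ M ^ 4 := pow_le_pow_right₀ hM (by norm_num)
  have hM2 : M ^ 2 ≤ M ^ 4 := pow_le_pow_right₀ hM (by norm_num)
  have hM3 : M ^ 3 ≤ M ^ 4 := pow_le_pow_right₀ hM (by norm_num)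
  refine ⟨by linarith, ?_, ?_, ?_, by positivity, ?_⟩
  · change |τ (θ.2 1)| ≤ _
    linarith [h2 1]
  · change |τ (rb θ.1 (θ.2 0) (θ.2 2) (θ.2 3))| ≤ _
    simp only [rb, map_sub, map_mul, map_pow, map_ofNat]
    have a1 : |τ (θ.2 0) * τ (θ.2 2)| ≤ M * M := by
      rw [abs_mul]
      have := h2 0
      have := h2 2
      gcongr
    have a2 : |4 * τ θ.1 ^ 2 * τ (θ.2 3)| ≤ 4 * M ^ 2 * M := by
      rw [abs_mul, abs_mul, abs_pow, abs_of_pos (by norm_num : (0 : ℝ) < 4)]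
      have := h2 3
      gcongr
    have := abs_sub (τ (θ.2 0) * τ (θ.2 2)) (4 * τ θ.1 ^ 2 * τ (θ.2 3))
    nlinarith
  · change |τ (rc θ.1 (θ.2 0) (θ.2 1) (θ.2 2) (θ.2 3))| ≤ _
    simp only [rc, map_sub, map_add, map_mul, map_pow, map_ofNat]
    have a1 : |τ (θ.2 0) ^ 2 * τ (θ.2 3)| ≤ M ^ 2 * M := by
      rw [abs_mul, abs_pow]
      have := h2 0
      have := h2 3
      gcongr
    have a2 : |τ θ.1 ^ 2 * τ (θ.2 2) ^ 2| ≤ M ^ 2 * M ^ 2 := by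
      rw [abs_mul, abs_pow, abs_pow]
      have := h2 2
      gcongr
    have a3 : |4 * τ θ.1 ^ 2 * τ (θ.2 1) * τ (θ.2 3)| ≤ 4 * M ^ 2 * M * M := by
      rw [abs_mul, abs_mul, abs_mul, abs_pow, abs_of_pos (by norm_num : (0 : ℝ) < 4)]
      have := h2 1
      have := h2 3
      gcongr
    have b1 := abs_sub (τ (θ.2 0) ^ 2 * τ (θ.2 3) + τ θ.1 ^ 2 * τ (θ.2 2) ^ 2)
      (4 * τ θ.1 ^ 2 * τ (θ.2 1) * τ (θ.2 3))
    have b2 := abs_add_le (τ (θ.2 0) ^ 2 * τ (θ.2 3)) (τ θ.1 ^ 2 * τ (θ.2 2) ^ 2)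
    have e1 : M ^ 2 * M = M ^ 3 := by ring
    have e2 : M ^ 2 * M ^ 2 = M ^ 4 := by ring
    have e3 : 4 * M ^ 2 * M * M = 4 * M ^ 4 := by ring
    rw [e1] at a1
    rw [e2] at a2
    rw [e3] at a3
    linarith
  · have : M ^ 4 ≠ 0 := by linarith
    field_simp
    norm_num

/-- **Rational points on genus one curves, close to a real point, `p`-adically close to the base point.** -/
theorem move2 [DecidableEq K] (τ : K →+* ℝ) {θ' : ℝ × (Fin 4 → ℝ)} (h0 : θ'.1 ≠ 0 ∨ θ'.2 0 ≠ 0) :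
    ∃ δ : ℝ, 0 < δ ∧ ∀ θ : K × (Fin 4 → K), dsc (tA θ) (tB θ) (tC θ) ≠ 0 →
      (∃ S : Pt (tA θ) (tB θ) (tC θ), ∀ n : ℕ, n ≠ 0 → n • S ≠ 0) → |τ θ.1 - θ'.1| < δ →
      (∀ j, |τ (θ.2 j) - θ'.2 j| < δ) → ∀ t' Y' : ℝ, |t'| < δ → |Y' - θ'.1| < δ →
      Y' ^ 2 = qv (τ θ.1) (fun j => τ (θ.2 j)) t' → ∀ η : ℝ, 0 < η →
      ∃ s Z : K, Z ^ 2 = qv θ.1 θ.2 s ∧ (∀ i, ‖σ i s‖ < η ∧ ‖σ i Z - σ i θ.1‖ < η) ∧
        |τ s - t'| < η ∧ |τ Z - Y'| < η := by
  set M : ℝ := |θ'.1| + |θ'.2 0| + |θ'.2 1| + |θ'.2 2| + |θ'.2 3| + 1 with hM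
  have n0 := abs_nonneg θ'.1
  have n1 := abs_nonneg (θ'.2 0)
  have n2 := abs_nonneg (θ'.2 1)
  have n3 := abs_nonneg (θ'.2 2)
  have n4 := abs_nonneg (θ'.2 3)
  have hM1 : 1 ≤ M := by rw [hM]; linarith
  have hM4 : 0 < M ^ 4 := by positivity
  obtain ⟨B, hB⟩ := size2 hM1 (ρ' := 1 / (100 * (6 * M ^ 4))) (by positivity)
  obtain ⟨δ, hδ, hn⟩ := near2 h0 B
  refine ⟨min δ 1, lt_min hδ one_pos, fun θ hD hS hw hq t' Y' ht hY he η hη => ?_⟩
  have hw1 : |τ θ.1| ≤ M := by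
    have := abs_sub_abs_le_abs_sub (τ θ.1) θ'.1
    have := hw.trans_le (min_le_right _ _)
    rw [hM]; linarith
  have hq1 : ∀ j, |τ (θ.2 j)| ≤ M := by
    intro j
    have h1 := abs_sub_abs_le_abs_sub (τ (θ.2 j)) (θ'.2 j)
    have h2 := (hq j).trans_le (min_le_right _ _)
    have h3 : |θ'.2 j| ≤ |θ'.2 0| + |θ'.2 1| + |θ'.2 2| + |θ'.2 3| := by
      fin_cases j <;> simp <;> linarith
    rw [hM]; linarith
  have hBd := Bd_of_le (τ := τ) hM1 hw1 hq1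
  rcases hn (τ θ.1) (fun j => τ (θ.2 j)) t' Y' (hw.trans_le (min_le_left _ _))
    (fun j => (hq j).trans_le (min_le_left _ _)) (ht.trans_le (min_le_left _ _))
    (hY.trans_le (min_le_left _ _)) he with ⟨h1, h2⟩ | ⟨u, h1, h2, h3⟩
  · refine ⟨0, θ.1, by simp [qv], fun i => ⟨by simpa using hη, by simpa using hη⟩, ?_, ?_⟩
    · simpa [h1] using hη
    · simpa [h2] using hη
  · obtain ⟨S, hS⟩ := hS
    obtain ⟨k1, k2, k3, k4, k5⟩ := hB (τ θ.1) (τ (θ.2 1)) (τ (θ.2 2)) (τ (θ.2 3)) u t' hw1 (hq1 1)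
      (hq1 2) (hq1 3) (ht.trans_le (min_le_right _ _)).le h1
    obtain ⟨s, Z, g1, g2, g3, g4⟩ := move1 (σ := σ) hD hS hBd h2 k1 k2 k3 k4 k5 hη
    refine ⟨s, Z, g1, g2, g3, ?_⟩
    rw [← h3]; exact g4

end move

end Pool.Agent.L5helper15.KD
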