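import Pool.Agent.L5helper15.KD.Ad

/-! Local lemmas for potential weak approximation -/

set_option autoImplicit false
set_option linter.unusedVariables false
set_option linter.unusedSectionVars false

open Filter Topology

namespace Pool.Agent.L5helper15.KD

open MvPolynomial Pool.Agent.Y720.MZ Pool.Agent.Results.MP_ed3816_nt.OpenAwayFromTorsion

section real

variable {m : ℕ} {g : MvPolynomial (Fin m) ℝ}

/-- the points close to a point outside the branch locus belong to its component -/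
theorem comp_near {x : (Fin m → ℝ) × ℝ} (hon : onX g x.1 x.2) (hw : x.2 ≠ 0) :
    ∃ ρ : ℝ, 0 < ρ ∧ ∀ z : (Fin m → ℝ) × ℝ, (∀ k, |z.1 k - x.1 k| < ρ) → |z.2 - x.2| < ρ →
      onX g z.1 z.2 → z ∈ connectedComponentIn (Smooth g) x := by
  have hw2 : 0 < x.2 ^ 2 := by positivity
  have hpos : 0 < eval x.1 g := by rw [← hon]; exact hw2
  have hc : Continuous fun a => eval a g := MvPolynomial.continuous_eval g
  have h1 : ∀ᶠ a in 𝓝 x.1, 0 < eval a g := hc.continuousAt.eventually (lt_mem_nhds hpos)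
  obtain ⟨ρ, hρ, hb⟩ := Metric.eventually_nhds_iff_ball.1 h1
  let φ : (Fin m → ℝ) → (Fin m → ℝ) × ℝ := fun a => (a, x.2 * √(eval a g / x.2 ^ 2))
  have hφ : Continuous φ := by fun_prop
  have hφ2 : ∀ a ∈ Metric.ball x.1 ρ, onX g (φ a).1 (φ a).2 ∧ (φ a).2 ≠ 0 := by
    intro a ha
    have h2 := hb a ha
    constructor
    · change (x.2 * √(eval a g / x.2 ^ 2)) ^ 2 = eval a g
      rw [mul_pow, Real.sq_sqrt (by positivity)]
      field_simp
    · exact mul_ne_zero hw (Real.sqrt_pos.2 (by positivity)).ne'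
  have hφx : φ x.1 = x := by
    have : eval x.1 g / x.2 ^ 2 = 1 := by rw [← hon]; field_simp
    change (x.1, x.2 * √(eval x.1 g / x.2 ^ 2)) = x
    rw [this, Real.sqrt_one, mul_one]
  have hsub : φ '' Metric.ball x.1 ρ ⊆ connectedComponentIn (Smooth g) x := by
    refine IsPreconnected.subset_connectedComponentIn ?_ ⟨x.1, Metric.mem_ball_self hρ, hφx⟩ ?_
    · exact (convex_ball x.1 ρ).isPreconnected.image φ hφ.continuousOn
    · rintro _ ⟨a, ha, rfl⟩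
      exact ⟨(hφ2 a ha).1, Or.inl (hφ2 a ha).2⟩
  refine ⟨min ρ |x.2|, lt_min hρ (abs_pos.2 hw), fun z k1 k2 k3 => ?_⟩
  have hz : z.1 ∈ Metric.ball x.1 ρ := by
    rw [Metric.mem_ball, dist_pi_lt_iff hρ]
    intro k
    rw [Real.dist_eq]
    exact (k1 k).trans_le (min_le_left _ _)
  have hφz : φ z.1 = z := by
    have h3 := (hφ2 z.1 hz).1
    have h4 : (φ z.1).2 ^ 2 = z.2 ^ 2 := by
      rw [show (φ z.1).2 ^ 2 = eval z.1 g from h3]
      exact (show z.2 ^ 2 = eval z.1 g from k3).symm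
    rcases sq_eq_sq_iff_eq_or_eq_neg.1 h4 with h5 | h5
    · exact Prod.ext rfl h5
    · exfalso
      have h6 : 0 < √(eval z.1 g / x.2 ^ 2) := by
        have := hb z.1 hz
        positivity
      have h7 : z.2 = -(x.2 * √(eval z.1 g / x.2 ^ 2)) := by
        rw [← neg_eq_iff_eq_neg, ← h5]
      have h8 := k2.trans_le (min_le_right _ _)
      rw [h7] at h8
      have h9 : -(x.2 * √(eval z.1 g / x.2 ^ 2)) - x.2 = -(x.2 * (1 + √(eval z.1 g / x.2 ^ 2))) := by ring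
      rw [h9, abs_neg, abs_mul, abs_of_pos (by linarith : 0 < 1 + √(eval z.1 g / x.2 ^ 2))] at h8
      have h10 : 0 < |x.2| := abs_pos.2 hw
      nlinarith
  rw [← hφz]
  exact hsub ⟨z.1, hz, rfl⟩

end real

section padic

variable {q : ℕ} [hq : Fact q.Prime] {m : ℕ} {g : MvPolynomial (Fin m) ℚ_[q]}

lemma nonsq_norm {u d : ℚ_[q]} (h : u ^ 2 = d) (hd : ‖d‖ = (q : ℝ)⁻¹) : False := by
  have hu : u ≠ 0 := by
    rintro rfl
    rw [← h, zero_pow two_ne_zero, norm_zero] at hd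
    have : (0 : ℝ) < (q : ℝ)⁻¹ := inv_pos.2 (by exact_mod_cast hq.out.pos)
    linarith
  have h1 := congrArg norm h
  rw [norm_pow, hd, Padic.norm_eq_zpow_neg_valuation hu, ← zpow_natCast, ← zpow_mul, ← zpow_neg_one] at h1
  have hq1 : (1 : ℝ) < q := by exact_mod_cast hq.out.one_lt
  have := (zpow_right_injective₀ (by linarith) hq1.ne') h1
  push_cast at this
  omega

/-- the values close to a smooth branch point -/
lemma branch_val {x : Fin m → ℚ_[q]} {j : Fin m} (h0 : eval x g = 0)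
    (hj : eval x (pderiv j g) ≠ 0) {c : ℚ_[q]} (hc : c ≠ 0) {ε : ℝ} (hε : 0 < ε) :
    ∃ t Y : ℚ_[q], ‖t‖ < ε ∧ ‖Y‖ < ε ∧ Y ≠ 0 ∧
      eval (fun k => x k + t * (Pi.single j 1 : Fin m → ℚ_[q]) k) g = c * Y ^ 2 := by
  obtain ⟨Q, hQ⟩ : ∃ Q, Q = rst g x (Pi.single j 1) := ⟨_, rfl⟩
  have hQe : ∀ t, Q.eval t = eval (fun k => x k + t * (Pi.single j 1 : Fin m → ℚ_[q]) k) g := by
    intro t
    rw [hQ, rst_eval]
    congr 1
  have hQ0 : Q.coeff 0 = 0 := by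
    rw [Polynomial.coeff_zero_eq_eval_zero, hQe]
    have e : (fun k => x k + 0 * (Pi.single j 1 : Fin m → ℚ_[q]) k) = x := by
      funext k; ring
    rw [e, h0]
  have hQ1 : Q.coeff 1 ≠ 0 := by
    have h1 : (Polynomial.derivative Q).eval 0 = eval x (pderiv j g) := by
      rw [hQ, rst_deriv, rst_eval, dd_single]
      simp
    rw [← Polynomial.coeff_zero_eq_eval_zero, Polynomial.coeff_derivative] at h1
    rw [← h1] at hj
    intro h2
    apply hj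
    rw [show 0 + 1 = 1 from rfl, h2, zero_mul]
  obtain ⟨R, hR⟩ : ∃ R, R = Q.divX := ⟨_, rfl⟩
  have hQR : ∀ t, Q.eval t = R.eval t * t := by
    intro t
    have := Polynomial.divX_mul_X_add Q
    rw [hQ0, map_zero, add_zero, ← hR] at this
    rw [← this, Polynomial.eval_mul, Polynomial.eval_X]
  obtain ⟨r, hr⟩ : ∃ r, r = R.eval 0 := ⟨_, rfl⟩
  have hr0 : r ≠ 0 := by
    rw [hr, ← Polynomial.coeff_zero_eq_eval_zero, hR, Polynomial.coeff_divX]
    exact hQ1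
  obtain ⟨δ, hδ, hs⟩ := exists_sqrt (one_ne_zero : (1 : ℚ_[q]) ≠ 0) (ε := 1 / 2) (by norm_num)
  have c1 : Continuous fun s : ℚ_[q] => ‖R.eval (r * c * s ^ 2) / r - 1 ^ 2‖ :=
    (((R.continuous.comp (by fun_prop)).div_const r).sub continuous_const).norm
  have e1 : ∀ᶠ s in 𝓝 (0 : ℚ_[q]), ‖R.eval (r * c * s ^ 2) / r - 1 ^ 2‖ < δ := by
    refine c1.continuousAt.eventually (gt_mem_nhds ?_)
    simp only [ne_eq, OfNat.ofNat_ne_zero, not_false_eq_true, zero_pow, mul_zero, ← hr, one_pow,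
      div_self hr0, sub_self, norm_zero]
    exact hδ
  have c2 : Continuous fun s : ℚ_[q] => ‖r * c * s ^ 2‖ := by fun_prop
  have e2 : ∀ᶠ s in 𝓝 (0 : ℚ_[q]), ‖r * c * s ^ 2‖ < ε := by
    refine c2.continuousAt.eventually (gt_mem_nhds ?_)
    simpa using hε
  have c3 : Continuous fun s : ℚ_[q] => ‖r * s‖ * 2 := by fun_prop
  have e3 : ∀ᶠ s in 𝓝 (0 : ℚ_[q]), ‖r * s‖ * 2 < ε := by
    refine c3.continuousAt.eventually (gt_mem_nhds ?_)
    simpa using hε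
  obtain ⟨ρ, hρ, hb⟩ := Metric.eventually_nhds_iff_ball.1 (e1.and (e2.and e3))
  obtain ⟨s, hs0, hsρ⟩ := NormedField.exists_norm_lt ℚ_[q] hρ
  obtain ⟨k1, k2, k3⟩ := hb s (by rwa [Metric.mem_ball, dist_zero_right])
  obtain ⟨u, hu1, hu2⟩ := hs _ k1
  have hu0 : u ≠ 0 := by
    rintro rfl
    rw [zero_sub, norm_neg, norm_one] at hu1
    norm_num at hu1
  have hu3 : ‖u‖ ≤ 2 := by
    have := norm_le_norm_add_norm_sub' u 1
    rw [norm_one] at this
    linarith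
  refine ⟨r * c * s ^ 2, r * s * u, k2, ?_, mul_ne_zero (mul_ne_zero hr0 (norm_pos_iff.1 hs0)) hu0, ?_⟩
  · rw [norm_mul]
    calc ‖r * s‖ * ‖u‖ ≤ ‖r * s‖ * 2 := by gcongr
      _ < ε := k3
  · rw [← hQe, hQR]
    have : R.eval (r * c * s ^ 2) = r * u ^ 2 := by
      rw [hu2]; field_simp
    rw [this]; ring

/-- nonsquares -/
lemma nonsq_near {x : Fin m → ℚ_[q]} {Y : ℚ_[q]} (hY : Y ≠ 0) (hx : eval x g = (q : ℚ_[q]) * Y ^ 2) :
    ∃ ρ : ℝ, 0 < ρ ∧ ∀ x' : Fin m → ℚ_[q], (∀ k, ‖x' k - x k‖ < ρ) →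
      ¬ ∃ u : ℚ_[q], u ^ 2 = eval x' g := by
  have hq0 : (q : ℚ_[q]) ≠ 0 := by exact_mod_cast hq.out.ne_zero
  have hx0 : (q : ℚ_[q]) * Y ^ 2 ≠ 0 := mul_ne_zero hq0 (pow_ne_zero 2 hY)
  obtain ⟨δ, hδ, hs⟩ := exists_sqrt (one_ne_zero : (1 : ℚ_[q]) ≠ 0) (ε := 1 / 2) (by norm_num)
  have c1 : Continuous fun x' : Fin m → ℚ_[q] => ‖eval x' g / ((q : ℚ_[q]) * Y ^ 2) - 1 ^ 2‖ :=
    (((MvPolynomial.continuous_eval g).div_const _).sub continuous_const).norm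
  have e1 : ∀ᶠ x' in 𝓝 x, ‖eval x' g / ((q : ℚ_[q]) * Y ^ 2) - 1 ^ 2‖ < δ := by
    refine c1.continuousAt.eventually (gt_mem_nhds ?_)
    change ‖eval x g / ((q : ℚ_[q]) * Y ^ 2) - 1 ^ 2‖ < δ
    rw [hx, div_self hx0, one_pow, sub_self, norm_zero]
    exact hδ
  obtain ⟨ρ, hρ, hb⟩ := Metric.eventually_nhds_iff_ball.1 e1
  refine ⟨ρ, hρ, fun x' hx' => ?_⟩
  rintro ⟨u, hu⟩
  obtain ⟨v, hv1, hv2⟩ := hs _ (hb x' (by
    rw [Metric.mem_ball, dist_pi_lt_iff hρ]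
    intro k
    rw [dist_eq_norm]
    exact hx' k))
  have hv0 : v ≠ 0 := by
    rintro rfl
    rw [zero_sub, norm_neg, norm_one] at hv1
    norm_num at hv1
  rw [eq_div_iff hx0, ← hu] at hv2
  refine nonsq_norm (q := q) (u := u / (v * Y)) (d := (q : ℚ_[q])) ?_ (by rw [Padic.norm_p])
  rw [div_pow, div_eq_iff (pow_ne_zero 2 (mul_ne_zero hv0 hY)), ← hv2]
  ring

/-- **Close to a branch point with smooth curves through it all the points have infinite order.** -/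
theorem branch_free {x : Fin m → ℚ_[q]} (h0 : eval x g = 0)
    (hj : ∀ j, eval x (pderiv j g) ≠ 0) (hT : ∀ j, Tq g (Pi.single j 1) x ≠ 0) :
    ∃ δ : ℝ, 0 < δ ∧ ∀ (L : Type) [Field L] [CharZero L] (σ : L →+* ℚ_[q])
      (h : MvPolynomial (Fin m) L), map σ h = g → ∀ (a : Fin m → L) (b : L), onX h a b →
      (∀ k, ‖σ (a k) - x k‖ < δ) → ‖σ b‖ < δ → b ≠ 0 → Free h (a, b) := by
  have key : ∀ j, ∃ δ : ℝ, 0 < δ ∧ ∀ (L : Type) [Field L] [CharZero L] (σ : L →+* ℚ_[q])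
      (h : MvPolynomial (Fin m) L), map σ h = g → ∀ (a : Fin m → L) (b : L), onX h a b →
      (∀ k, ‖σ (a k) - x k‖ < δ) → ‖σ b‖ < δ → b ≠ 0 → Moves h (a, b) j := by
    intro j
    let : DecidableEq ℚ_[q] := Classical.decEq _
    obtain ⟨θ₀, hθ₀⟩ : ∃ θ₀ : ℚ_[q] × (Fin 4 → ℚ_[q]), θ₀ = (0, cq g x (Pi.single j 1)) := ⟨_, rfl⟩
    have hTn : TnL (RingHom.id ℚ_[q]) (𝓝 θ₀) θ₀ :=
      ⟨continuous_fst.continuousAt, fun i =>
        ((continuous_apply i).comp continuous_snd).continuousAt⟩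
    have hD : dsc (tA θ₀) (tB θ₀) (tC θ₀) ≠ 0 := by
      have h1 : onX g x 0 := by unfold onX; rw [h0]; simp
      have h2 := Tq_eq (e := Pi.single j 1) h1
      rw [hθ₀]
      change dsc (tA (th g (Pi.single j 1) x 0)) (tB (th g (Pi.single j 1) x 0))
        (tC (th g (Pi.single j 1) x 0)) ≠ 0
      rw [h2]; exact hT j
    have hq1 : θ₀.2 0 ≠ 0 := by
      rw [hθ₀]
      have h1 : (Polynomial.derivative (rst g x (Pi.single j 1))).eval 0 = eval x (pderiv j g) := by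
        rw [rst_deriv, rst_eval, dd_single]
        simp
      rw [← Polynomial.coeff_zero_eq_eval_zero, Polynomial.coeff_derivative] at h1
      change (rst g x (Pi.single j 1)).coeff 1 ≠ 0
      intro h2
      apply hj j
      rw [← h1, show 0 + 1 = 1 from rfl, h2, zero_mul]
    obtain ⟨C, hC⟩ : ∃ C, C = CL θ₀ := ⟨_, rfl⟩
    obtain ⟨ρ, hρ⟩ : ∃ ρ, ρ = 1 / (100 * CL θ₀) := ⟨_, rfl⟩
    have hBb := Bd_baseL θ₀
    have hρ0 : 0 < ρ := by rw [hρ]; exact hBb.hρ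
    obtain ⟨r, hr⟩ : ∃ r, r = min ρ ‖(q : ℚ_[q])‖ := ⟨_, rfl⟩
    have hr0 : 0 < r := by rw [hr]; exact lt_min hρ0 norm_p_pos
    obtain ⟨B, hB⟩ : ∃ B, B = max (6 * C) (max (2 / r ^ 2) (2 / ρ ^ 2)) := ⟨_, rfl⟩
    have hB0 : 0 < B := by
      rw [hB]
      exact lt_max_of_lt_right (lt_max_of_lt_left (by positivity))
    obtain ⟨c, hc⟩ : ∃ c, c = ‖θ₀.2 0‖ / 2 := ⟨_, rfl⟩
    have hc0 : 0 < c := by rw [hc]; exact half_pos (norm_pos_iff.2 hq1)
    obtain ⟨M, hM⟩ : ∃ M, M = ‖θ₀.2 1‖ + 1 := ⟨_, rfl⟩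
    have hM0 : 0 < M := by rw [hM]; positivity
    have ev1 : ∀ᶠ θ in 𝓝 θ₀, Bd (av (RingHom.id ℚ_[q])) (tA θ) (tB θ) (tC θ) C ρ := by
      rw [hC, hρ]; exact hTn.Bd
    have ev2 : ∀ᶠ θ in 𝓝 θ₀, dsc (tA θ) (tB θ) (tC θ) ≠ 0 := hTn.dsc_ne hD
    have ev3 : ∀ᶠ θ in 𝓝 θ₀, c < ‖θ.2 0‖ := by
      refine ((hTn.2 0).norm).eventually (lt_mem_nhds ?_)
      rw [hc]
      have := norm_pos_iff.2 hq1
      linarith
    have ev4 : ∀ᶠ θ in 𝓝 θ₀, ‖θ.2 1‖ < M := by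
      refine ((hTn.2 1).norm).eventually (gt_mem_nhds ?_)
      rw [hM]; linarith
    have hcont : Continuous fun e : (Fin m → ℚ_[q]) × ℚ_[q] =>
        ((e.2, cq g e.1 (Pi.single j 1)) : ℚ_[q] × (Fin 4 → ℚ_[q])) := by
      refine continuous_snd.prodMk (continuous_pi fun i => ?_)
      exact (rst_coeff_cont g (Pi.single j 1) _).comp continuous_fst
    have ht : Tendsto (fun e : (Fin m → ℚ_[q]) × ℚ_[q] =>
        ((e.2, cq g e.1 (Pi.single j 1)) : ℚ_[q] × (Fin 4 → ℚ_[q]))) (𝓝 (x, 0)) (𝓝 θ₀) := by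
      have := hcont.tendsto (x, 0)
      rw [hθ₀]
      exact this
    have ev5 := ht.eventually (ev1.and (ev2.and (ev3.and ev4)))
    obtain ⟨δ, hδ, hb⟩ := Metric.eventually_nhds_iff_ball.1 ev5
    refine ⟨min δ (c / (B + M + 1)), lt_min hδ (by positivity), ?_⟩
    intro L _ _ σ h hh a b hab k1 k2 hb0
    let : DecidableEq L := Classical.decEq L
    obtain ⟨θ, hθ⟩ : ∃ θ, θ = th h (Pi.single j 1) a b := ⟨_, rfl⟩
    obtain ⟨g1, g2, g3, g4⟩ := hb (fun k => σ (a k), σ b) (by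
      rw [Metric.mem_ball, Prod.dist_eq]
      refine max_lt ?_ ?_
      · rw [dist_pi_lt_iff hδ]
        intro k
        rw [dist_eq_norm]
        exact (k1 k).trans_le (min_le_left _ _)
      · rw [dist_zero_right]
        exact k2.trans_le (min_le_left _ _))
    have hsi : (fun k => σ ((Pi.single j 1 : Fin m → L) k)) = Pi.single j 1 := by
      funext k
      by_cases hk : k = j
      · subst hk; simp
      · rw [Pi.single_eq_of_ne hk, Pi.single_eq_of_ne hk, map_zero]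
    have hcq : cq g (fun k => σ (a k)) (Pi.single j 1) = fun i => σ (θ.2 i) := by
      funext i
      rw [hθ]
      simp only [th, cq]
      rw [← Polynomial.coeff_map, rst_map, hh, hsi]
    have hθ1 : σ θ.1 = σ b := by rw [hθ]; rfl
    simp only [hcq] at g1 g2 g3 g4
    have eA : tA ((σ b, fun i => σ (θ.2 i)) : ℚ_[q] × (Fin 4 → ℚ_[q])) = σ (tA θ) := rfl
    have eB : tB ((σ b, fun i => σ (θ.2 i)) : ℚ_[q] × (Fin 4 → ℚ_[q])) = σ (tB θ) := by
      simp only [tB, rb, map_sub, map_mul, map_pow, map_ofNat, hθ1]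
    have eC : tC ((σ b, fun i => σ (θ.2 i)) : ℚ_[q] × (Fin 4 → ℚ_[q])) = σ (tC θ) := by
      simp only [tC, rc, map_sub, map_add, map_mul, map_pow, map_ofNat, hθ1]
    rw [eA, eB, eC] at g1 g2
    have hBd : Bd (av σ) (tA θ) (tB θ) (tC θ) C ρ := ⟨g1.hC, g1.ha, g1.hb, g1.hc, g1.hρ, g1.hCρ⟩
    have hdsc : dsc (tA θ) (tB θ) (tC θ) ≠ 0 := by
      intro hz
      apply g2
      have := congrArg σ hz
      simp only [dsc, map_sub, map_add, map_mul, map_pow, map_ofNat, map_zero] at this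
      simp only [dsc]
      exact this
    have hbθ : θ.1 ≠ 0 := by rw [hθ]; exact hb0
    have hns := tns hbθ hdsc
    -- the abscissa is large
    have hσb : 0 < ‖σ b‖ := norm_pos_iff.2 ((map_ne_zero σ).2 hb0)
    have hX : B < av σ (tX θ) := by
      have hb1 : ‖σ b‖ < c / (B + M + 1) := k2.trans_le (min_le_right _ _)
      have e1 : σ (tX θ) = σ (θ.2 0) ^ 2 / (4 * σ b ^ 2) - σ (θ.2 1) := by
        simp only [tX, xs, map_sub, map_div₀, map_mul, map_pow, map_ofNat, hθ1]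
      rw [av_apply, e1]
      have e2 := norm_sub_norm_le (σ (θ.2 0) ^ 2 / (4 * σ b ^ 2)) (σ (θ.2 1))
      have e3 : ‖σ (θ.2 0) ^ 2 / (4 * σ b ^ 2)‖ = ‖σ (θ.2 0)‖ ^ 2 / (‖(4 : ℚ_[q])‖ * ‖σ b‖ ^ 2) := by
        rw [norm_div, norm_pow, norm_mul, norm_pow]
      have e4 : ‖(4 : ℚ_[q])‖ ≤ 1 := by
        have := Padic.norm_int_le_one (p := q) 4
        exact_mod_cast this
      have e40 : 0 < ‖(4 : ℚ_[q])‖ := norm_pos_iff.2 (by norm_num)
      have e5 : (B + M + 1) ^ 2 ≤ ‖σ (θ.2 0)‖ ^ 2 / (‖(4 : ℚ_[q])‖ * ‖σ b‖ ^ 2) := by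
        rw [le_div_iff₀ (by positivity)]
        rw [lt_div_iff₀ (by positivity)] at hb1
        have e6 : (‖σ b‖ * (B + M + 1)) ^ 2 ≤ ‖σ (θ.2 0)‖ ^ 2 := by
          gcongr
          linarith
        calc (B + M + 1) ^ 2 * (‖(4 : ℚ_[q])‖ * ‖σ b‖ ^ 2) ≤ (B + M + 1) ^ 2 * (1 * ‖σ b‖ ^ 2) := by gcongr
          _ = (‖σ b‖ * (B + M + 1)) ^ 2 := by ring
          _ ≤ _ := e6
      rw [e3] at e2
      nlinarith
    obtain ⟨hW, hn1, hn2⟩ := big_x' hBd hr0 (tX θ) (tY θ) (cv_ns.1 hns).1 (by rw [← hB]; exact hX)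
    have hNb : Nb (av σ) ρ r (.some _ _ hns : Pt (tA θ) (tB θ) (tC θ)) := (Nb_some hns).2 ⟨hW, hn1, hn2⟩
    have hrρ : r ≤ ρ := by rw [hr]; exact min_le_left _ _
    have hTT : 0 < av σ (TT (.some _ _ hns : Pt (tA θ) (tB θ) (tC θ))) :=
      (av σ).pos (TT_ne hBd hrρ hNb (by simp))
    have hio : IOt θ := by
      refine ⟨hdsc, fun h n hn => ?_⟩
      exact U7 hBd (hNb.le.trans hrρ) hTT (hNb.le.trans (by rw [hr]; exact min_le_right _ _))
        (hNb.mono le_rfl) rfl n hn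
    exact (moves_iff (P := (a, b)) hab).2 (by rw [← hθ]; exact hio)
  choose δ hδ hb using key
  obtain ⟨δ', hδ', hle⟩ := fin_min hδ
  refine ⟨δ', hδ', ?_⟩
  intro L _ _ σ h hh a b hab k1 k2 hb0
  exact ⟨hab, hb0, fun j => hb j L σ h hh a b hab (fun k => (k1 k).trans_le (hle j))
    (k2.trans_le (hle j)) hb0⟩

end padic

end Pool.Agent.L5helper15.KD
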