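import Pool.Agent.L5helper15.KD.Near
import Pool.Agent.Results.MP_ed3816_nt.OpenAwayFromTorsion

/-! Moves on double covers, at the real place only -/

set_option autoImplicit false
set_option linter.unusedVariables false
set_option linter.unusedSectionVars false

open Filter Topology

namespace Pool.Agent.L5helper15.KD

open MvPolynomial Pool.Agent.Y720.MZ Pool.Agent.Results.MP_ed3816_nt.OpenAwayFromTorsion

section inf

variable {K : Type} [Field K] [CharZero K] {m : ℕ} {f : MvPolynomial (Fin m) K} {ι : Type}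
  {p : ι → ℕ} [hp : ∀ i, Fact (p i).Prime] {σ : ∀ i, K →+* ℚ_[p i]}

/-- close to the local points `y` the fibres in the direction `j` have points of infinite order -/
def Inf (f : MvPolynomial (Fin m) K) (σ : ∀ i, K →+* ℚ_[p i])
    (y : ∀ i, (Fin m → ℚ_[p i]) × ℚ_[p i]) (j : Fin m) : Prop :=
  ∃ v : ι, ∃ ρ : ℝ, 0 < ρ ∧ ∀ (a : Fin m → K) (b : K), onX f a b →
    (∀ k, ‖σ v (a k) - (y v).1 k‖ < ρ) → ‖σ v b - (y v).2‖ < ρ →
    dsc (tA (th f (Pi.single j 1) a b)) (tB (th f (Pi.single j 1) a b))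
      (tC (th f (Pi.single j 1) a b)) ≠ 0 ∧
    ∃ S : Pt (tA (th f (Pi.single j 1) a b)) (tB (th f (Pi.single j 1) a b))
      (tC (th f (Pi.single j 1) a b)),
      letI : DecidableEq K := Classical.decEq K
      ∀ n : ℕ, n ≠ 0 → n • S ≠ 0

/-- it is an open condition -/
lemma Inf.nhd {y : ∀ i, (Fin m → ℚ_[p i]) × ℚ_[p i]} {j : Fin m} (h : Inf f σ y j) :
    ∃ ρ : ℝ, 0 < ρ ∧ ∀ y' : ∀ i, (Fin m → ℚ_[p i]) × ℚ_[p i],
      (∀ i, (∀ k, ‖(y' i).1 k - (y i).1 k‖ < ρ) ∧ ‖(y' i).2 - (y i).2‖ < ρ) → Inf f σ y' j := by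
  obtain ⟨v, ρ, hρ, hb⟩ := h
  refine ⟨ρ / 2, half_pos hρ, fun y' hy' => ⟨v, ρ / 2, half_pos hρ, fun a b hab h1 h2 => ?_⟩⟩
  refine hb a b hab (fun k => ?_) ?_
  · have e1 := norm_sub_le_norm_sub_add_norm_sub (σ v (a k)) ((y' v).1 k) ((y v).1 k)
    have := h1 k
    have := (hy' v).1 k
    linarith
  · have e1 := norm_sub_le_norm_sub_add_norm_sub (σ v b) ((y' v).2) ((y v).2)
    have := (hy' v).2
    linarith

lemma inf_of {y : ∀ i, (Fin m → ℚ_[p i]) × ℚ_[p i]} {j : Fin m} {v : ι}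
    (hon : OnCover (map (σ v) f) (y v)) (hw : (y v).2 ≠ 0)
    (hm : Moves (map (σ v) f) (y v) j) : Inf f σ y j := by
  let : DecidableEq K := Classical.decEq K
  let : DecidableEq ℚ_[p v] := Classical.decEq _
  obtain ⟨hD, hS⟩ := io_of hon hm
  obtain ⟨θ₀, hθ₀⟩ : ∃ θ₀, θ₀ = th (map (σ v) f) (Pi.single j 1) (y v).1 (y v).2 := ⟨_, rfl⟩
  rw [← hθ₀] at hD hS
  have hw' : θ₀.1 ≠ 0 := by rw [hθ₀]; exact hw
  have hns := tns hw' hD
  have hinf := hS hns
  let σ' : Unit → K →+* ℚ_[p v] := fun _ => σ v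
  let : ∀ i : Unit, Fact ((fun _ : Unit => p v) i).Prime := fun _ => hp v
  obtain ⟨N, hN, hNp⟩ := near_pL (ι := Unit) (p := fun _ => p v) (θ₀ := fun _ => θ₀)
    (fun _ => hD) (S := fun _ => .some _ _ hns) (fun _ => hinf)
    (r := fun _ => min (1 / (100 * CL θ₀)) ‖(p v : ℚ_[p v])‖)
    (fun _ => lt_min (Bd_baseL θ₀).hρ norm_p_pos) (fun _ => min_le_left _ _)
  have hNp' := hNp ()
  set l := lLp (p := fun _ : Unit => p v) σ' (fun _ => θ₀) with hl
  have hT : TnL (σ v) l θ₀ := TnLp_p (σ := σ') ()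
  have ev1 : ∀ᶠ θ in l, θ.1 ≠ 0 := hT.ne hw'
  have ev2 : ∀ᶠ θ in l, dsc (tA θ) (tB θ) (tC θ) ≠ 0 := hT.dsc_ne hD
  have ev3 : ∀ᶠ θ in l, Bd (av (σ v)) (tA θ) (tB θ) (tC θ) (CL θ₀) (1 / (100 * CL θ₀)) := hT.Bd
  have ev4 := ev_pL hT hw' hns hinf hN (min_le_left _ _) hNp'
  obtain ⟨δ, hδ, hb⟩ := lLp_ev (ev1.and (ev2.and (ev3.and ev4)))
  obtain ⟨δ', hδ', hc⟩ := cq_nearL (V := Unit) (L := fun _ => ℚ_[p v]) (s := σ') f
    (Pi.single j 1) (fun _ => (y v).1) hδ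
  refine ⟨v, min δ δ', lt_min hδ hδ', fun a b hab h1 h2 => ?_⟩
  have hsi : (fun k => σ' () ((Pi.single j 1 : Fin m → K) k)) = Pi.single j 1 := by
    funext k
    by_cases h : k = j
    · subst h; simp [σ']
    · rw [Pi.single_eq_of_ne h, Pi.single_eq_of_ne h, map_zero]
  obtain ⟨g1, g2, g3, g4⟩ := hb (th f (Pi.single j 1) a b)
    (fun _ => by rw [hθ₀]; exact h2.trans_le (min_le_left _ _))
    (fun _ i => by
      have := hc a (fun _ k => (h1 k).trans_le (min_le_right _ _)) () i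
      rw [hsi] at this
      rw [hθ₀]
      exact this)
  refine ⟨g2, N • (.some _ _ (tns g1 g2)), ?_⟩
  obtain ⟨g5, g6⟩ := g4 (tns g1 g2)
  refine U7 g3 (hNp'.le.trans (min_le_left _ _)) ?_ (hNp'.le.trans (min_le_right _ _)) g5 g6
  exact (av (RingHom.id _)).pos (TT_ne (Bd_baseL θ₀) (min_le_left _ _) hNp' (hinf N hN))

end inf

section lm

variable {K : Type} [Field K] [CharZero K] {m : ℕ} {f : MvPolynomial (Fin m) K} {ι : Type}
  [Finite ι] {p : ι → ℕ} [hp : ∀ i, Fact (p i).Prime] {σ : ∀ i, K →+* ℚ_[p i]} {τ : K →+* ℝ}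

omit [CharZero K] in
lemma mem_cl {T : ((Fin m → ℝ) × ℝ) × ∀ i, (Fin m → ℚ_[p i]) × ℚ_[p i]} :
    T ∈ ClosureReal f σ τ ↔ ∀ η : ℝ, 0 < η → ∃ (a : Fin m → K) (b : K), onX f a b ∧
      ((∀ k, |τ (a k) - T.1.1 k| < η) ∧ |τ b - T.1.2| < η) ∧
      ∀ i, (∀ k, ‖σ i (a k) - (T.2 i).1 k‖ < η) ∧ ‖σ i b - (T.2 i).2‖ < η := by
  have : Fintype ι := Fintype.ofFinite ι
  rw [ClosureReal, Metric.mem_closure_iff]
  constructor
  · intro h η hη
    obtain ⟨_, ⟨P, hP, rfl⟩, h2⟩ := h η hη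
    rw [Prod.dist_eq, max_lt_iff, dist_pi_lt_iff hη] at h2
    exact ⟨P.1, P.2, hP, (dist_image τ P T.1 hη).1 h2.1,
      fun i => (dist_image (σ i) P (T.2 i) hη).1 (h2.2 i)⟩
  · intro h η hη
    obtain ⟨a, b, h1, h2, h3⟩ := h η hη
    refine ⟨_, ⟨(a, b), h1, rfl⟩, ?_⟩
    rw [Prod.dist_eq, max_lt_iff, dist_pi_lt_iff hη]
    exact ⟨(dist_image τ (a, b) T.1 hη).2 h2,
      fun i => (dist_image (σ i) (a, b) (T.2 i) hη).2 (h3 i)⟩

lemma cq_zero {g : MvPolynomial (Fin m) ℝ} {z : Fin m → ℝ} {j : Fin m} :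
    cq g z (Pi.single j 1) 0 = eval z (pderiv j g) := by
  have h1 : (Polynomial.derivative (rst g z (Pi.single j 1))).eval 0 = eval z (pderiv j g) := by
    rw [rst_deriv, rst_eval, dd_single]
    simp
  rw [← h1, ← Polynomial.coeff_zero_eq_eval_zero, Polynomial.coeff_derivative]
  simp [cq]

/-- the point moved in the direction `j` -/
def shf (x : Fin m → ℝ) (j : Fin m) (t : ℝ) : Fin m → ℝ := fun k => x k + t * (Pi.single j 1 : Fin m → ℝ) k

/-- **Moves at the real place.** -/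
theorem lm (hd : ∀ j, f.degreeOf j ≤ 4) {y : ∀ i, (Fin m → ℚ_[p i]) × ℚ_[p i]} {j : Fin m}
    (hI : Inf f σ y j) {z : (Fin m → ℝ) × ℝ}
    (hz : z.2 ≠ 0 ∨ eval z.1 (pderiv j (map τ f)) ≠ 0) :
    ∃ δ : ℝ, 0 < δ ∧ ∀ z₁ : (Fin m → ℝ) × ℝ, (∀ k, |z₁.1 k - z.1 k| < δ) → |z₁.2 - z.2| < δ →
      (z₁, y) ∈ ClosureReal f σ τ → ∀ t Y : ℝ, |t| < δ → |Y - z.2| < δ → Y ≠ 0 →
      onX (map τ f) (shf z₁.1 j t) Y → ((shf z₁.1 j t, Y), y) ∈ ClosureReal f σ τ := by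
  have : Fintype ι := Fintype.ofFinite ι
  let : DecidableEq K := Classical.decEq K
  obtain ⟨v, ρ, hρ, hI⟩ := hI
  have hsi : (fun k => τ ((Pi.single j 1 : Fin m → K) k)) = Pi.single j 1 := by
    funext k
    by_cases h : k = j
    · subst h; simp
    · rw [Pi.single_eq_of_ne h, Pi.single_eq_of_ne h, map_zero]
  obtain ⟨δ₀, hδ₀, hmv⟩ := move2 (σ := σ) τ (θ' := (z.2, cq (map τ f) z.1 (Pi.single j 1)))
    (by
      change z.2 ≠ 0 ∨ cq (map τ f) z.1 (Pi.single j 1) 0 ≠ 0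
      rw [cq_zero]; exact hz)
  obtain ⟨δ₁, hδ₁, hc⟩ := cq_nearL (V := Unit) (L := fun _ => ℝ) (s := fun _ => τ) f
    (Pi.single j 1) (fun _ => z.1) hδ₀
  rw [hsi] at hc
  set δ := min δ₀ δ₁ / 2 with hδ
  have hδ0 : 0 < δ := half_pos (lt_min hδ₀ hδ₁)
  have d0 : 2 * δ ≤ δ₀ := by
    have := min_le_left δ₀ δ₁
    rw [hδ]; linarith
  have d1 : 2 * δ ≤ δ₁ := by
    have := min_le_right δ₀ δ₁
    rw [hδ]; linarith
  refine ⟨δ, hδ0, fun z₁ h1 h2 hcl t Y ht hY hY0 hon => ?_⟩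
  rw [mem_cl] at hcl ⊢
  intro η hη
  obtain ⟨ρ₁, hρ₁, hsq⟩ := sq_near hon hY0 (ε := min (η / 2) δ) (lt_min (half_pos hη) hδ0)
  obtain ⟨a, b, hab, ⟨k1, k2⟩, k3⟩ := hcl (min (min ρ₁ (η / 2)) (min δ ρ))
    (lt_min (lt_min hρ₁ (half_pos hη)) (lt_min hδ0 hρ))
  have m1 : min (min ρ₁ (η / 2)) (min δ ρ) ≤ ρ₁ := (min_le_left _ _).trans (min_le_left _ _)
  have m2 : min (min ρ₁ (η / 2)) (min δ ρ) ≤ η / 2 := (min_le_left _ _).trans (min_le_right _ _)
  have m3 : min (min ρ₁ (η / 2)) (min δ ρ) ≤ δ := (min_le_right _ _).trans (min_le_left _ _)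
  have m4 : min (min ρ₁ (η / 2)) (min δ ρ) ≤ ρ := (min_le_right _ _).trans (min_le_right _ _)
  obtain ⟨Y', hY', hon'⟩ := hsq (shf (fun k => τ (a k)) j t) (fun k => by
    have : shf (fun k => τ (a k)) j t k - shf z₁.1 j t k = τ (a k) - z₁.1 k := by
      simp only [shf]; ring
    rw [this]
    exact (k1 k).trans_le m1)
  rw [Real.norm_eq_abs] at hY'
  obtain ⟨g1, g2⟩ := hI a b hab (fun k => ((k3 v).1 k).trans_le m4) ((k3 v).2.trans_le m4)
  have habτ : onX (map τ f) (fun k => τ (a k)) (τ b) := onX_map (s := fun _ : Unit => τ) hab ()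
  have hcqτ : (fun i => τ (cq f a (Pi.single j 1) i)) = cq (map τ f) (fun k => τ (a k)) (Pi.single j 1) := by
    funext i
    simp only [cq]
    rw [← Polynomial.coeff_map, rst_map, hsi]
  have hqv : Y' ^ 2 = qv (τ b) (fun i => τ (cq f a (Pi.single j 1) i)) t := by
    rw [hcqτ, cq_eval (deg_rst (degreeOf_map_le τ (hd j)) _) habτ t]
    exact hon'
  obtain ⟨s, Z, n1, n2, n3, n4⟩ := hmv (th f (Pi.single j 1) a b) g1 g2
    (by
      have := abs_sub_le (τ b) z₁.2 z.2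
      have := k2.trans_le m3
      change |τ b - z.2| < δ₀
      linarith)
    (fun i => by
      refine hc a (fun _ k => ?_) () i
      have := abs_sub_le (τ (a k)) (z₁.1 k) (z.1 k)
      have := (k1 k).trans_le m3
      have := h1 k
      change |τ (a k) - z.1 k| < δ₁
      linarith)
    t Y' (by linarith)
    (by
      have := abs_sub_le Y' Y z.2
      have := hY'.trans_le (min_le_right _ _)
      change |Y' - z.2| < δ₀
      linarith) hqv (η / 2) (half_pos hη)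
  have hbd : ∀ (k : Fin m) {x : ℝ}, 0 ≤ x → x < η / 2 → x * |(Pi.single j 1 : Fin m → ℝ) k| < η / 2 := by
    intro k x hx0 hx
    by_cases h : k = j
    · subst h; simpa using hx
    · rw [Pi.single_eq_of_ne h]; simpa using hη
  refine ⟨fun k => a k + s * (Pi.single j 1 : Fin m → K) k, Z, ?_, ⟨fun k => ?_, ?_⟩, fun i => ⟨fun k => ?_, ?_⟩⟩
  · unfold onX
    rw [n1]
    exact cq_eval (deg_rst (hd j) a) hab s
  · have e1 : τ (a k + s * (Pi.single j 1 : Fin m → K) k) - shf z₁.1 j t k =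
        (τ (a k) - z₁.1 k) + (τ s - t) * (Pi.single j 1 : Fin m → ℝ) k := by
      have := congrFun hsi k
      rw [map_add, map_mul, this, shf]; ring
    change |τ (a k + s * (Pi.single j 1 : Fin m → K) k) - shf z₁.1 j t k| < η
    rw [e1]
    refine (abs_add_le _ _).trans_lt ?_
    rw [abs_mul]
    have := (k1 k).trans_le m2
    have := hbd k (abs_nonneg _) n3
    linarith
  · have := abs_sub_le (τ Z) Y' Y
    have := hY'.trans_le (min_le_left _ _)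
    change |τ Z - Y| < η
    linarith
  · have e1 : σ i (a k + s * (Pi.single j 1 : Fin m → K) k) - (y i).1 k =
        (σ i (a k) - (y i).1 k) + σ i s * σ i ((Pi.single j 1 : Fin m → K) k) := by
      rw [map_add, map_mul]; ring
    rw [e1]
    refine (norm_add_le _ _).trans_lt ?_
    rw [norm_mul]
    have h3 := ((k3 i).1 k).trans_le m2
    have h4 : ‖σ i s‖ * ‖σ i ((Pi.single j 1 : Fin m → K) k)‖ < η / 2 := by
      by_cases h : k = j
      · subst h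
        rw [Pi.single_eq_same, map_one, norm_one, mul_one]
        exact (n2 i).1
      · rw [Pi.single_eq_of_ne h, map_zero, norm_zero, mul_zero]
        exact half_pos hη
    linarith
  · have e1 := norm_sub_le_norm_sub_add_norm_sub (σ i Z) (σ i b) (y i).2
    have := (k3 i).2.trans_le m2
    have e2 : ‖σ i Z - σ i b‖ < η / 2 := (n2 i).2
    linarith

end lm

end Pool.Agent.L5helper15.KD
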